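import Mathlib

/-!
# RTX, averaging

If `∑ p ∈ S, f (y p.1) (y p.2) < 0` for all choices `y i ∈ N i`, then one pair `p ∈ S` has
`∑ a ∈ N p.1, ∑ b ∈ N p.2, μ a μ b f a b < 0`: multiply by `∏ i, μ (y i)`, sum over all `y`
(`Fintype.piFinset N`); the sum factorizes, `p.1 ≠ p.2`.
-/

set_option autoImplicit false

namespace Pool.Agent.RTX

open Finset

theorem avg_exists {X : Type*} [DecidableEq X] {M : ℕ} (μ : X → ℝ) (h0 : ∀ a, 0 ≤ μ a)
    (N : Fin M → Finset X) (hN : ∀ i, 0 < ∑ a ∈ N i, μ a) (S : Finset (Fin M × Fin M))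
    (hS : ∀ p ∈ S, p.1 ≠ p.2) (f : X → X → ℝ)
    (hf : ∀ y : Fin M → X, (∀ i, y i ∈ N i) → ∑ p ∈ S, f (y p.1) (y p.2) < 0) :
    ∃ p ∈ S, ∑ a ∈ N p.1, ∑ b ∈ N p.2, μ a * μ b * f a b < 0 := by
  classical
  by_contra hcon
  push Not at hcon
  have key : ∀ i j : Fin M, i ≠ j → ∑ y ∈ Fintype.piFinset N, (∏ k, μ (y k)) * f (y i) (y j) =
      (∏ k ∈ (univ.erase i).erase j, ∑ c ∈ N k, μ c) * ∑ a ∈ N i, ∑ b ∈ N j, μ a * μ b * f a b := by
    intro i j hij
    have h1 : ∀ y ∈ Fintype.piFinset N, (∏ k, μ (y k)) * f (y i) (y j) = ∑ a ∈ N i, ∑ b ∈ N j,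
        f a b * ∏ k, (μ (y k) * ((if k = i then (if y k = a then (1 : ℝ) else 0) else 1) *
          (if k = j then (if y k = b then (1 : ℝ) else 0) else 1))) := by
      intro y hy
      rw [Fintype.mem_piFinset] at hy
      rw [Finset.sum_eq_single_of_mem (y i) (hy i), Finset.sum_eq_single_of_mem (y j) (hy j)]
      · rw [mul_comm]
        congr 1
        refine Finset.prod_congr rfl fun k _ => ?_
        by_cases hk : k = i
        · subst hk
          simp [hij]
        · by_cases hk' : k = j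
          · subst hk'
            simp [hk]
          · simp [hk, hk']
      · intro b _ hb
        rw [Finset.prod_eq_zero (Finset.mem_univ j), mul_zero]
        simp [hij.symm, Ne.symm hb]
      · intro a _ ha
        refine Finset.sum_eq_zero fun b _ => ?_
        rw [Finset.prod_eq_zero (Finset.mem_univ i), mul_zero]
        simp [hij, Ne.symm ha]
    rw [Finset.sum_congr rfl h1, Finset.sum_comm, Finset.mul_sum]
    refine Finset.sum_congr rfl fun a ha => ?_
    rw [Finset.sum_comm, Finset.mul_sum]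
    refine Finset.sum_congr rfl fun b hb => ?_
    have hprod : ∏ k, ∑ c ∈ N k, μ c * ((if k = i then (if c = a then (1 : ℝ) else 0) else 1) *
          (if k = j then (if c = b then (1 : ℝ) else 0) else 1)) =
        μ a * μ b * ∏ k ∈ (univ.erase i).erase j, ∑ c ∈ N k, μ c := by
      rw [← Finset.mul_prod_erase univ _ (Finset.mem_univ i),
        ← Finset.mul_prod_erase (univ.erase i) _ (Finset.mem_erase.2 ⟨hij.symm, Finset.mem_univ j⟩), ← mul_assoc]
      congr 1
      · congr 1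
        · simp [hij, ha]
        · simp [hij.symm, hb]
      · refine Finset.prod_congr rfl fun k hk => ?_
        rw [Finset.mem_erase, Finset.mem_erase] at hk
        simp [hk.1, hk.2.1]
    rw [← Finset.mul_sum]
    have h5 := Finset.prod_univ_sum N (fun k c => μ c * ((if k = i then (if c = a then (1 : ℝ) else 0) else 1) *
          (if k = j then (if c = b then (1 : ℝ) else 0) else 1)))
    rw [← h5, hprod]
    ring
  have hpos : 0 < ∑ y ∈ Fintype.piFinset N, ∏ k, μ (y k) := by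
    rw [← Finset.prod_univ_sum]
    exact Finset.prod_pos fun i _ => hN i
  have hneg : ∑ y ∈ Fintype.piFinset N, (∏ k, μ (y k)) * ∑ p ∈ S, f (y p.1) (y p.2) < 0 := by
    obtain ⟨y₀, hy₀, hy₁⟩ : ∃ y ∈ Fintype.piFinset N, 0 < ∏ k, μ (y k) := by
      by_contra hno
      push Not at hno
      exact absurd hpos (not_lt.2 (Finset.sum_nonpos hno))
    have h3 : ∀ y ∈ Fintype.piFinset N, (∏ k, μ (y k)) * ∑ p ∈ S, f (y p.1) (y p.2) ≤ 0 := fun y hy =>
      mul_nonpos_of_nonneg_of_nonpos (Finset.prod_nonneg fun k _ => h0 _) (hf y (Fintype.mem_piFinset.1 hy)).le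
    have h4 := Finset.sum_lt_sum h3 ⟨y₀, hy₀, mul_neg_of_pos_of_neg hy₁ (hf y₀ (Fintype.mem_piFinset.1 hy₀))⟩
    rw [Finset.sum_const_zero] at h4
    exact h4
  have hge : 0 ≤ ∑ y ∈ Fintype.piFinset N, (∏ k, μ (y k)) * ∑ p ∈ S, f (y p.1) (y p.2) := by
    simp only [Finset.mul_sum]
    rw [Finset.sum_comm]
    refine Finset.sum_nonneg fun p hp => ?_
    rw [key p.1 p.2 (hS p hp)]
    exact mul_nonneg (Finset.prod_nonneg fun k _ => (hN k).le) (hcon p hp)
  exact absurd hneg (not_lt.2 hge)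

end Pool.Agent.RTX
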