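import Mathlib

/-!
# RTX, the average of a product of functions of different coordinates
-/

set_option autoImplicit false

namespace Pool.Agent.RTX

open Finset

/-- `c` injective on `P`: the average over all `s : ι → Fin Q` of `∏ p ∈ P, g p (s (c p))` is the
product of the averages. -/
theorem sum_prod {ι κ : Type*} [Fintype ι] [DecidableEq ι] {Q : ℕ} (hQ : 1 ≤ Q) (P : Finset κ)
    (c : κ → ι) (hc : Set.InjOn c P) (g : κ → Fin Q → ℝ) :
    ∑ s : ι → Fin Q, ∏ p ∈ P, g p (s (c p)) =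
      (Q : ℝ) ^ Fintype.card ι * ∏ p ∈ P, ((∑ a, g p a) / Q) := by
  classical
  have hQ0 : (Q : ℝ) ≠ 0 := by
    have : Q ≠ 0 := by omega
    exact_mod_cast this
  have h1 : ∀ s : ι → Fin Q, ∏ p ∈ P, g p (s (c p)) =
      ∏ i : ι, ∏ p ∈ P with c p = i, g p (s i) := by
    intro s
    rw [← Finset.prod_fiberwise P c fun p => g p (s (c p))]
    refine Finset.prod_congr rfl fun i _ => Finset.prod_congr rfl fun p hp => ?_
    rw [(Finset.mem_filter.1 hp).2]
  have h2 : ∑ s : ι → Fin Q, ∏ i : ι, ∏ p ∈ P with c p = i, g p (s i) =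
      ∏ i : ι, ∑ a : Fin Q, ∏ p ∈ P with c p = i, g p a := by
    rw [Finset.prod_univ_sum, Fintype.piFinset_univ]
  have h3 : (Q : ℝ) ^ Fintype.card ι * ∏ p ∈ P, ((∑ a, g p a) / Q) =
      ∏ i : ι, ((Q : ℝ) * ∏ p ∈ P with c p = i, ((∑ a, g p a) / Q)) := by
    rw [Finset.prod_mul_distrib, Finset.prod_const, Finset.card_univ,
      Finset.prod_fiberwise P c fun p => (∑ a, g p a) / (Q : ℝ)]
  rw [Finset.sum_congr rfl fun s _ => h1 s, h2, h3]
  refine Finset.prod_congr rfl fun i _ => ?_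
  by_cases h : ∃ p ∈ P, c p = i
  · obtain ⟨p, hp, hpi⟩ := h
    have h4 : (P.filter fun x => c x = i) = {p} := by
      ext x
      rw [Finset.mem_filter, Finset.mem_singleton]
      constructor
      · rintro ⟨hx, hxi⟩
        exact hc (Finset.mem_coe.2 hx) (Finset.mem_coe.2 hp) (hxi.trans hpi.symm)
      · rintro rfl
        exact ⟨hp, hpi⟩
    rw [h4, Finset.prod_singleton, mul_div_cancel₀ _ hQ0]
    refine Finset.sum_congr rfl fun a _ => ?_
    rw [Finset.prod_singleton]
  · have h4 : (P.filter fun x => c x = i) = ∅ := by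
      rw [Finset.filter_eq_empty_iff]
      intro x hx hxi
      exact h ⟨x, hx, hxi⟩
    rw [h4, Finset.prod_empty, mul_one]
    simp

end Pool.Agent.RTX
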