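import Pool.Agent.RTX.Defs
import Pool.Agent.RTX.Prob

/-!
# RTX, the base structure: definitions (see `Base.lean`)
-/

set_option autoImplicit false

namespace Pool.Agent.RTX

open Finset Pool.Agent.RSU

variable {K Q M : ℕ}

/-- the leaf with the coordinates `> j` replaced by `0` -/
def pre (j : ℕ) (a : Fin K → Fin 2) : Fin K → Fin 2 := fun i => if (i : ℕ) ≤ j then a i else 0

/-- the random bit of level `j` (probability `1 / Q`) -/
def bit (s : ℕ → Sym2 (Fin K → Fin 2) → Fin Q) (j : ℕ) (a b : Fin K → Fin 2) : Bool :=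
  decide (((s j s(pre j a, pre j b) : Fin Q) : ℕ) = 0)

/-- the parity of the bits of the levels `lev a b ≤ i < j` -/
def Wj (s : ℕ → Sym2 (Fin K → Fin 2) → Fin Q) : ℕ → (Fin K → Fin 2) → (Fin K → Fin 2) → Bool
  | 0, _, _ => false
  | j + 1, a, b => if lev a b ≤ j then xor (Wj s j a b) (bit s j a b) else false

/-- the pairs `i < k` -/
def prs (M : ℕ) : Finset (Fin M × Fin M) := univ.filter fun p => p.1 < p.2

/-- the pairs with value `v` before level `J` -/
def Pv (s : ℕ → Sym2 (Fin K → Fin 2) → Fin Q) (J : ℕ) (y : Fin M → (Fin K → Fin 2)) (v : Bool) :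
    Finset (Fin M × Fin M) := (prs M).filter fun p => Wj s (J - 1) (y p.1) (y p.2) = v

/-- the majority class -/
def Pm (s : ℕ → Sym2 (Fin K → Fin 2) → Fin Q) (J : ℕ) (y : Fin M → (Fin K → Fin 2)) :
    Finset (Fin M × Fin M) :=
  if (Pv s J y true).card ≤ (Pv s J y false).card then Pv s J y false else Pv s J y true

/-- the pairs of the majority class with value `b` at level `J` -/
def Ss (s : ℕ → Sym2 (Fin K → Fin 2) → Fin Q) (J : ℕ) (b : Bool) (y : Fin M → (Fin K → Fin 2)) :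
    Finset (Fin M × Fin M) := (Pm s J y).filter fun p => Wj s J (y p.1) (y p.2) = b

/-- value of an unchanged pair, `m` levels before the end -/
noncomputable def ph (Q m : ℕ) : ℝ := 17 / 4 - 15 / 4 * (1 - 2 / (Q : ℝ)) ^ m

/-- value of a changed pair, `m` levels before the end -/
noncomputable def ps (Q m : ℕ) : ℝ := 17 / 4 + 15 / 4 * (1 - 2 / (Q : ℝ)) ^ m

/-- the terms of the potential -/
noncomputable def Tt (s : ℕ → Sym2 (Fin K → Fin 2) → Fin Q) (j J : ℕ)
    (y : Fin M → (Fin K → Fin 2)) : ℝ :=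
  if J ≤ j then
    ∑ b : Bool, ∏ p ∈ Ss s J b y,
      (if Wj s j (y p.1) (y p.2) = b then ph Q (K - j) else ps Q (K - j))
  else 2 * (1 - 1 / (4 * (Q : ℝ))) ^ (M * (M - 1) / 4)

/-- the potential -/
noncomputable def Phi (M : ℕ) (s : ℕ → Sym2 (Fin K → Fin 2) → Fin Q) (j : ℕ) : ℝ := by
  classical
  exact ∑ y : Fin M → (Fin K → Fin 2), ∑ J ∈ Icc 1 K,
    if ∀ i k, i ≠ k → lev (y i) (y k) < J then Tt s j J y else 0

/-! ### first facts -/

theorem ph_zero (Q : ℕ) : ph Q 0 = 1 / 2 := by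
  norm_num [ph]

theorem ps_zero (Q : ℕ) : ps Q 0 = 8 := by
  norm_num [ps]

theorem ph_succ (Q m : ℕ) : ph Q (m + 1) = (1 - 1 / (Q : ℝ)) * ph Q m + 1 / (Q : ℝ) * ps Q m := by
  unfold ph ps
  ring

theorem ps_succ (Q m : ℕ) : ps Q (m + 1) = (1 - 1 / (Q : ℝ)) * ps Q m + 1 / (Q : ℝ) * ph Q m := by
  unfold ph ps
  ring

theorem Wj_comm (s : ℕ → Sym2 (Fin K → Fin 2) → Fin Q) (j : ℕ) (a b : Fin K → Fin 2) :
    Wj s j a b = Wj s j b a := by
  induction j with
  | zero => rfl
  | succ j ih =>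
    unfold Wj
    have h : bit s j a b = bit s j b a := by
      unfold bit
      rw [Sym2.eq_swap]
    rw [lev_comm a b, ih, h]

/-- `Wj s j` depends only on `s i`, `i < j` -/
theorem Wj_congr {s t : ℕ → Sym2 (Fin K → Fin 2) → Fin Q} {j : ℕ} (h : ∀ i < j, s i = t i)
    (a b : Fin K → Fin 2) : Wj s j a b = Wj t j a b := by
  induction j with
  | zero => rfl
  | succ j ih =>
    unfold Wj bit
    rw [ih fun i hi => h i (by omega), h j (by omega)]

end Pool.Agent.RTX
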