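import Pool.Agent.RTX.BNum

/-!
# RTX, the base structure: the last potential

`Phi M s K < 1` and all terms `≥ 0` (`ph_pos`, `ps_pos`), so `Tt s K J y < 1` for all `y` with pairwise
`lev < J`; `S = Ss s J false x`, `S' = Ss s J true x` (these sets are the same for `x` and for every
`y` with `J ≤ lev (y i) (x i)`); `∏ (1/2 or 8) < 1` gives `4 * changed < card`.
-/

set_option autoImplicit false

namespace Pool.Agent.RTX

open Finset Pool.Agent.RSU

variable {K M : ℕ}

/-- two leaves agree before their first difference -/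
private theorem lev_spec {a b : Fin K → Fin 2} (i : Fin K) (hi : (i : ℕ) < lev a b) :
    a i = b i := by
  by_contra hne
  have h1 : (range K).filter (fun i => ∀ j : Fin K, (j : ℕ) ≤ i → a j = b j) ⊆ range (i : ℕ) := by
    intro m hm
    rw [mem_filter, mem_range] at hm
    rw [mem_range]
    by_contra hcon
    push Not at hcon
    exact hne (hm.2 i hcon)
  have h2 := card_le_card h1
  rw [card_range] at h2
  unfold lev at hi
  omega

/-- the first difference of two leaves depends only on nodes below it -/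
private theorem lev_same {J : ℕ} {x x' y y' : Fin K → Fin 2} (hy : J ≤ lev y x)
    (hy' : J ≤ lev y' x') (hx : lev x x' < J) : lev y y' = lev x x' := by
  have hJ : J ≤ K := hy.trans (lev_le _ _)
  have hl : lev x x' < K := by omega
  refine lev_eq hl ?_ ?_
  · intro j hj
    rw [lev_spec (a := y) (b := x) j (by omega), lev_spec (a := y') (b := x') j (by omega)]
    exact lev_spec j hj
  · rw [lev_spec (a := y) (b := x) ⟨lev x x', hl⟩ (by simp only; omega),
      lev_spec (a := y') (b := x') ⟨lev x x', hl⟩ (by simp only; omega)]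
    intro he
    have h1 : lev x x' + 1 ≤ lev x x' := by
      refine le_lev (by omega) ?_
      intro j hj
      rcases Nat.lt_succ_iff_lt_or_eq.1 hj with h | h
      · exact lev_spec j h
      · have : j = ⟨lev x x', hl⟩ := Fin.ext h
        rw [this]
        exact he
    omega

private theorem pre_same {J j : ℕ} (hj : j < J) {x y : Fin K → Fin 2} (hy : J ≤ lev y x) :
    pre j y = pre j x := by
  funext i
  unfold pre
  split_ifs with h
  · exact lev_spec i (by omega)
  · rfl

private theorem Wj_same {Q : ℕ} (s : ℕ → Sym2 (Fin K → Fin 2) → Fin Q) {J : ℕ}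
    {x x' y y' : Fin K → Fin 2} (hy : J ≤ lev y x)
    (hy' : J ≤ lev y' x') (hx : lev x x' < J) : ∀ j ≤ J, Wj s j y y' = Wj s j x x' := by
  intro j
  induction j with
  | zero => intro _; rfl
  | succ j ih =>
    intro hj
    unfold Wj bit
    rw [lev_same hy hy' hx, ih (by omega), pre_same (by omega) hy, pre_same (by omega) hy']

private theorem Pv_same {Q : ℕ} (s : ℕ → Sym2 (Fin K → Fin 2) → Fin Q) {J : ℕ}
    {x y : Fin M → (Fin K → Fin 2)} (hx : ∀ i j, i ≠ j → lev (x i) (x j) < J)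
    (hy : ∀ i, J ≤ lev (y i) (x i)) (v : Bool) : Pv s J y v = Pv s J x v := by
  unfold Pv
  refine filter_congr fun p hp => ?_
  have hp' : p.1 ≠ p.2 := (mem_filter.1 hp).2.ne
  rw [Wj_same s (hy p.1) (hy p.2) (hx _ _ hp') (J - 1) (by omega)]

private theorem Ss_same {Q : ℕ} (s : ℕ → Sym2 (Fin K → Fin 2) → Fin Q) {J : ℕ}
    {x y : Fin M → (Fin K → Fin 2)} (hx : ∀ i j, i ≠ j → lev (x i) (x j) < J)
    (hy : ∀ i, J ≤ lev (y i) (x i)) (b : Bool) : Ss s J b y = Ss s J b x := by
  have hm : Pm s J y = Pm s J x := by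
    unfold Pm
    rw [Pv_same s hx hy, Pv_same s hx hy]
  unfold Ss
  rw [hm]
  refine filter_congr fun p hp => ?_
  have hp0 : p ∈ prs M := by
    unfold Pm Pv at hp
    split_ifs at hp
    · exact (mem_filter.1 hp).1
    · exact (mem_filter.1 hp).1
  have hp' : p.1 ≠ p.2 := (mem_filter.1 hp0).2.ne
  rw [Wj_same s (hy p.1) (hy p.2) (hx _ _ hp') J le_rfl]

private theorem Ss_ne {Q : ℕ} (s : ℕ → Sym2 (Fin K → Fin 2) → Fin Q) (J : ℕ) (b : Bool)
    (y : Fin M → (Fin K → Fin 2)) : ∀ p ∈ Ss s J b y, p.1 ≠ p.2 := by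
  intro p hp
  have hp1 := (mem_filter.1 hp).1
  have hp0 : p ∈ prs M := by
    unfold Pm Pv at hp1
    split_ifs at hp1
    · exact (mem_filter.1 hp1).1
    · exact (mem_filter.1 hp1).1
  exact (mem_filter.1 hp0).2.ne

private theorem Tt_nonneg (hK : 1 ≤ K) (s : ℕ → Sym2 (Fin K → Fin 2) → Fin (30 * K)) {J : ℕ}
    (hJ : J ≤ K) (y : Fin M → (Fin K → Fin 2)) : 0 ≤ Tt s K J y := by
  unfold Tt
  rw [if_pos hJ]
  refine sum_nonneg fun b _ => prod_nonneg fun p _ => ?_
  split_ifs
  · exact (ph_pos hK).le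
  · exact (ps_pos hK).le

private theorem Tt_lt (hK : 1 ≤ K) (s : ℕ → Sym2 (Fin K → Fin 2) → Fin (30 * K))
    (h : Phi M s K < 1) {J : ℕ} (hJ1 : 1 ≤ J) (hJ : J ≤ K) (y : Fin M → (Fin K → Fin 2))
    (hy : ∀ i k, i ≠ k → lev (y i) (y k) < J) : Tt s K J y < 1 := by
  classical
  refine lt_of_le_of_lt ?_ h
  unfold Phi
  have hn : ∀ (z : Fin M → (Fin K → Fin 2)), ∀ J' ∈ Icc 1 K,
      0 ≤ (if ∀ i k, i ≠ k → lev (z i) (z k) < J' then Tt s K J' z else 0) := by
    intro z J' hJ'
    split_ifs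
    · exact Tt_nonneg hK s (mem_Icc.1 hJ').2 z
    · exact le_rfl
  have h1 := single_le_sum (s := Icc 1 K)
    (f := fun J' => if ∀ i k, i ≠ k → lev (y i) (y k) < J' then Tt s K J' y else 0)
    (hn y) (mem_Icc.2 ⟨hJ1, hJ⟩)
  have h2 := single_le_sum (s := (univ : Finset (Fin M → (Fin K → Fin 2))))
    (f := fun z => ∑ J' ∈ Icc 1 K,
      if ∀ i k, i ≠ k → lev (z i) (z k) < J' then Tt s K J' z else 0)
    (fun z _ => sum_nonneg (hn z)) (mem_univ y)
  have h3 : Tt s K J y = if ∀ i k, i ≠ k → lev (y i) (y k) < J then Tt s K J y else 0 := by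
    rw [if_pos hy]
  rw [h3]
  exact h1.trans h2

private theorem num {u c : ℕ} (h : (1 / 2 : ℝ) ^ u * 8 ^ c < 1) : 4 * c < u + c := by
  have h1 : (2 : ℝ) ^ (3 * c) < 2 ^ u := by
    have h2 : (8 : ℝ) ^ c = 2 ^ (3 * c) := by
      rw [pow_mul]
      norm_num
    rw [h2] at h
    have h3 : (0 : ℝ) < 2 ^ u := by positivity
    have h4 : (1 / 2 : ℝ) ^ u * 2 ^ u = 1 := by
      rw [← mul_pow]
      norm_num
    nlinarith [mul_lt_mul_of_pos_right h h3]
  have := (pow_lt_pow_iff_right₀ (by norm_num : (1 : ℝ) < 2)).1 h1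
  omega

private theorem changed (hK : 1 ≤ K) (s : ℕ → Sym2 (Fin K → Fin 2) → Fin (30 * K))
    (h : Phi M s K < 1) {J : ℕ} (hJ1 : 1 ≤ J) (hJ : J ≤ K) (y : Fin M → (Fin K → Fin 2))
    (hy : ∀ i k, i ≠ k → lev (y i) (y k) < J) (b : Bool) :
    4 * ((Ss s J b y).filter fun p => ¬ Wj s K (y p.1) (y p.2) = b).card < (Ss s J b y).card := by
  classical
  have h1 := Tt_lt hK s h hJ1 hJ y hy
  unfold Tt at h1
  rw [if_pos hJ] at h1
  have h2 : ∏ p ∈ Ss s J b y, (if Wj s K (y p.1) (y p.2) = b then ph (30 * K) (K - K)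
      else ps (30 * K) (K - K)) < 1 := by
    refine lt_of_le_of_lt ?_ h1
    refine single_le_sum (s := (univ : Finset Bool))
      (f := fun b => ∏ p ∈ Ss s J b y, (if Wj s K (y p.1) (y p.2) = b then ph (30 * K) (K - K)
      else ps (30 * K) (K - K))) (fun b _ => prod_nonneg fun p _ => ?_) (mem_univ b)
    split_ifs
    · exact (ph_pos hK).le
    · exact (ps_pos hK).le
  rw [Nat.sub_self, ph_zero, ps_zero, prod_ite, prod_const, prod_const] at h2
  have h3 := num h2
  have h4 := card_filter_add_card_filter_not (s := Ss s J b y)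
    (fun p => Wj s K (y p.1) (y p.2) = b)
  omega

theorem goodW_of_Phi (hK : 1 ≤ K) (hM : 2 ≤ M) (s : ℕ → Sym2 (Fin K → Fin 2) → Fin (30 * K))
    (h : Phi M s K < 1) : GoodW M (Wj s K) := by
  intro J hJ x hx
  have hJ1 : 1 ≤ J := by
    have h0 := hx ⟨0, by omega⟩ ⟨1, by omega⟩ (by
      intro he
      simpa using congrArg Fin.val he)
    omega
  refine ⟨Ss s J false x, Ss s J true x, Ss_ne s J false x, Ss_ne s J true x, ?_⟩
  intro y hy
  have hyy : ∀ i k, i ≠ k → lev (y i) (y k) < J := by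
    intro i k hik
    rw [lev_same (hy i) (hy k) (hx i k hik)]
    exact hx i k hik
  rw [← Ss_same s hx hy false, ← Ss_same s hx hy true]
  constructor
  · have h1 := changed hK s h hJ1 hJ y hyy false
    simpa using h1
  · have h1 := changed hK s h hJ1 hJ y hyy true
    simpa using h1

end Pool.Agent.RTX
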