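import Pool.Agent.RTX.BNum

/-!
# RTX, the base structure: the term `J = j + 1` (`Tt_new`)

The set `Pm` does not change; `E (if bit then .. )` gives at most `(1 - 1 / (4 Q)) ^ (Pm).card`, both for
`b` the majority value (`bit = false`) and the other one.
-/

set_option autoImplicit false

namespace Pool.Agent.RTX

open Finset Pool.Agent.RSU

variable {K M : ℕ}

private theorem card_prs (M : ℕ) : 2 * (prs M).card = M * (M - 1) := by
  have h1 : (prs M).card = ((univ : Finset (Fin M × Fin M)).filter fun p => p.2 < p.1).card := by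
    refine Finset.card_bij (fun p _ => (p.2, p.1)) ?_ ?_ ?_
    · intro p hp
      rw [prs, mem_filter] at hp
      rw [mem_filter]
      exact ⟨mem_univ _, hp.2⟩
    · intro p _ p' _ h
      rw [Prod.mk.injEq] at h
      exact Prod.ext h.2 h.1
    · intro p hp
      rw [mem_filter] at hp
      refine ⟨(p.2, p.1), ?_, rfl⟩
      rw [prs, mem_filter]
      exact ⟨mem_univ _, hp.2⟩
  have h2 : (prs M).card + ((univ : Finset (Fin M × Fin M)).filter fun p => p.2 < p.1).card +
      ((univ : Finset (Fin M × Fin M)).filter fun p => p.1 = p.2).card = M * M := by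
    have e1 : (univ : Finset (Fin M × Fin M)).card = M * M := by
      rw [card_univ, Fintype.card_prod, Fintype.card_fin]
    rw [← e1, ← card_union_of_disjoint, ← card_union_of_disjoint]
    · congr 1
      ext p
      simp only [prs, mem_union, mem_filter, mem_univ, true_and, iff_true]
      rcases lt_trichotomy p.1 p.2 with h | h | h
      · exact Or.inl (Or.inl h)
      · exact Or.inr h
      · exact Or.inl (Or.inr h)
    · rw [Finset.disjoint_left]
      intro p hp hp'
      simp only [prs, mem_union, mem_filter, mem_univ, true_and] at hp hp'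
      rcases hp with h | h
      · exact absurd hp' h.ne
      · exact absurd hp'.symm h.ne
    · rw [Finset.disjoint_left]
      intro p hp hp'
      simp only [prs, mem_filter, mem_univ, true_and] at hp hp'
      exact absurd hp' hp.not_gt
  have h3 : ((univ : Finset (Fin M × Fin M)).filter fun p => p.1 = p.2).card = M := by
    have e1 : ((univ : Finset (Fin M × Fin M)).filter fun p => p.1 = p.2) =
        (univ : Finset (Fin M)).image fun i => (i, i) := by
      ext p
      simp only [mem_filter, mem_univ, true_and, mem_image]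
      constructor
      · intro h
        exact ⟨p.1, Prod.ext rfl h⟩
      · rintro ⟨i, rfl⟩
        rfl
    rw [e1, card_image_of_injective _ (fun i k h => (Prod.mk.inj h).1), card_univ, Fintype.card_fin]
  rw [← h1, h3] at h2
  rcases M with _ | m
  · simp at h2 ⊢
    omega
  · rw [Nat.add_sub_cancel]
    have e3 : (m + 1) * (m + 1) = (m + 1) * m + (m + 1) := by ring
    omega

private theorem card_Pm {Q : ℕ} (s : ℕ → Sym2 (Fin K → Fin 2) → Fin Q) (J : ℕ)
    (y : Fin M → (Fin K → Fin 2)) : M * (M - 1) / 4 ≤ (Pm s J y).card := by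
  have h1 : (Pv s J y true).card + (Pv s J y false).card = (prs M).card := by
    unfold Pv
    have e1 := card_filter_add_card_filter_not (s := prs M)
      (fun p : Fin M × Fin M => Wj s (J - 1) (y p.1) (y p.2) = true)
    have e2 : ((prs M).filter fun p => Wj s (J - 1) (y p.1) (y p.2) = false) =
        (prs M).filter fun p => ¬ (Wj s (J - 1) (y p.1) (y p.2) = true) := by
      refine filter_congr fun p _ => ?_
      rw [Bool.not_eq_true]
    rw [e2]
    exact e1
  have h2 := card_prs M
  unfold Pm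
  split_ifs with h
  · omega
  · omega

theorem Tt_new (hK : 1 ≤ K) (s : ℕ → Sym2 (Fin K → Fin 2) → Fin (30 * K)) {j : ℕ} (hj : j < K)
    (y : Fin M → (Fin K → Fin 2)) (hy : ∀ i k, i ≠ k → lev (y i) (y k) < j + 1) :
    ∑ t : Sym2 (Fin K → Fin 2) → Fin (30 * K), Tt (Function.update s j t) (j + 1) (j + 1) y ≤
      ((30 * K : ℕ) : ℝ) ^ Fintype.card (Sym2 (Fin K → Fin 2)) * Tt s j (j + 1) y := by
  obtain ⟨Q, hQ⟩ : ∃ Q : ℕ, Q = 30 * K := ⟨_, rfl⟩
  have hQ30 : 30 ≤ Q := by omega
  obtain ⟨P, hP⟩ : ∃ P, P = Pm s (j + 1) y := ⟨_, rfl⟩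
  obtain ⟨v, hv⟩ : ∃ v : Bool, ∀ p ∈ P, p ∈ prs M ∧ Wj s j (y p.1) (y p.2) = v := by
    rw [hP]
    unfold Pm
    split_ifs with h
    · refine ⟨false, fun p hp => ?_⟩
      rw [Pv, mem_filter] at hp
      exact hp
    · refine ⟨true, fun p hp => ?_⟩
      rw [Pv, mem_filter] at hp
      exact hp
  have hw : ∀ (t : Sym2 (Fin K → Fin 2) → Fin (30 * K)) (a b : Fin K → Fin 2),
      Wj (Function.update s j t) j a b = Wj s j a b := fun t a b =>
    Wj_congr (fun i hi => Function.update_of_ne (by omega) _ _) a b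
  have hPm : ∀ t : Sym2 (Fin K → Fin 2) → Fin (30 * K),
      Pm (Function.update s j t) (j + 1) y = P := by
    intro t
    rw [hP]
    have e1 : ∀ v : Bool, Pv (Function.update s j t) (j + 1) y v = Pv s (j + 1) y v := by
      intro v
      unfold Pv
      refine filter_congr fun p _ => ?_
      rw [Nat.add_sub_cancel, hw t]
    unfold Pm
    rw [e1, e1]
  obtain ⟨c, hc⟩ : ∃ c : Fin M × Fin M → Sym2 (Fin K → Fin 2),
      c = fun p => s(pre j (y p.1), pre j (y p.2)) := ⟨_, rfl⟩
  -- injectivity
  have hpre : ∀ i k, pre j (y i) = pre j (y k) → i = k := by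
    intro i k h
    by_contra hik
    have h1 := hy i k hik
    have h2 : j + 1 ≤ lev (y i) (y k) := by
      refine le_lev (by omega) fun l hl => ?_
      have h3 := congrFun h l
      unfold pre at h3
      rwa [if_pos (by omega), if_pos (by omega)] at h3
    omega
  have hinj : Set.InjOn c P := by
    intro p hp p' hp' h
    rw [hc] at h
    have q1 := (hv p hp).1
    have q2 := (hv p' hp').1
    rw [prs, mem_filter] at q1 q2
    rcases Sym2.eq_iff.1 h with ⟨h1, h2⟩ | ⟨h1, h2⟩
    · exact Prod.ext (hpre _ _ h1) (hpre _ _ h2)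
    · have e1 := hpre _ _ h1
      have e2 := hpre _ _ h2
      have q3 := q1.2
      rw [e1, e2] at q3
      exact absurd q3 q2.2.not_gt
  -- the values on `P`
  have hval : ∀ (t : Sym2 (Fin K → Fin 2) → Fin (30 * K)), ∀ p ∈ P,
      Wj (Function.update s j t) (j + 1) (y p.1) (y p.2) =
        xor v (decide (((t (c p) : Fin (30 * K)) : ℕ) = 0)) := by
    intro t p hp
    obtain ⟨q1, q2⟩ := hv p hp
    rw [prs, mem_filter] at q1
    have q3 := hy p.1 p.2 q1.2.ne
    unfold Wj
    rw [if_pos (by omega), hw t, q2]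
    unfold bit
    rw [Function.update_self, hc]
  obtain ⟨x, hx⟩ : ∃ x : ℝ, x = ph (30 * K) (K - (j + 1)) := ⟨_, rfl⟩
  have hx0 : 0 < x := by rw [hx]; exact ph_pos hK
  have hx1 : x ≤ 3 / 4 := by rw [hx]; exact ph_le hK (by omega)
  -- the terms
  have hterm : ∀ t : Sym2 (Fin K → Fin 2) → Fin (30 * K),
      Tt (Function.update s j t) (j + 1) (j + 1) y =
        ∑ b : Bool, ∏ p ∈ P, (fun a : Fin (30 * K) =>
          if xor v (decide ((a : ℕ) = 0)) = b then x else 1) (t (c p)) := by
    intro t
    unfold Tt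
    rw [if_pos le_rfl]
    refine Finset.sum_congr rfl fun b _ => ?_
    unfold Ss
    rw [hPm t, prod_filter]
    refine Finset.prod_congr rfl fun p hp => ?_
    rw [hval t p hp, hx]
    by_cases h : xor v (decide (((t (c p) : Fin (30 * K)) : ℕ) = 0)) = b
    · rw [if_pos h, if_pos h]
      exact (if_pos h).symm
    · rw [if_neg h]
      exact (if_neg h).symm
  have hQ1 : 1 ≤ 30 * K := by omega
  have hQR : (30 : ℝ) ≤ ((30 * K : ℕ) : ℝ) := by
    exact_mod_cast (by omega : 30 ≤ 30 * K)
  -- the averages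
  have hav : ∀ b : Bool, 0 ≤ (∑ a : Fin (30 * K), (if xor v (decide ((a : ℕ) = 0)) = b then x else 1)) /
      ((30 * K : ℕ) : ℝ) ∧ (∑ a : Fin (30 * K), (if xor v (decide ((a : ℕ) = 0)) = b then x else 1)) /
      ((30 * K : ℕ) : ℝ) ≤ 1 - 1 / (4 * ((30 * K : ℕ) : ℝ)) := by
    intro b
    refine ⟨div_nonneg (Finset.sum_nonneg fun a _ => by split_ifs <;> positivity) (by positivity), ?_⟩
    have e0 : ∑ a : Fin (30 * K), (if xor v (decide ((a : ℕ) = 0)) = b then x else 1) =
        (if xor v true = b then x else 1) +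
          (((30 * K : ℕ) : ℝ) - 1) * (if xor v false = b then x else 1) := by
      rw [← Finset.add_sum_erase _ _ (mem_univ (⟨0, by omega⟩ : Fin (30 * K)))]
      congr 1
      have e1 : ∀ a ∈ (univ : Finset (Fin (30 * K))).erase ⟨0, by omega⟩,
          (if xor v (decide ((a : ℕ) = 0)) = b then x else 1) =
            (if xor v false = b then x else (1 : ℝ)) := by
        intro a ha
        have e2 : (a : ℕ) ≠ 0 := by
          intro h
          exact (Finset.mem_erase.1 ha).1 (Fin.ext h)
        rw [decide_eq_false e2]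
      rw [Finset.sum_congr rfl e1, Finset.sum_const, Finset.card_erase_of_mem (mem_univ _), card_univ,
        Fintype.card_fin, nsmul_eq_mul, Nat.cast_sub hQ1, Nat.cast_one]
    rw [e0]
    obtain ⟨R, hR⟩ : ∃ R : ℝ, R = ((30 * K : ℕ) : ℝ) := ⟨_, rfl⟩
    rw [← hR] at hQR ⊢
    have hR0 : (0 : ℝ) < R := by linarith
    rw [div_le_iff₀ hR0]
    have e3 : (1 - 1 / (4 * R)) * R = R - 1 / 4 := by field_simp
    rw [e3]
    cases v <;> cases b <;> simp <;> nlinarith
  rw [Finset.sum_congr rfl fun t _ => hterm t, Finset.sum_comm]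
  have hsum : ∀ b : Bool, ∑ t : Sym2 (Fin K → Fin 2) → Fin (30 * K), ∏ p ∈ P,
      (fun a : Fin (30 * K) => if xor v (decide ((a : ℕ) = 0)) = b then x else 1) (t (c p)) ≤
      ((30 * K : ℕ) : ℝ) ^ Fintype.card (Sym2 (Fin K → Fin 2)) *
        (1 - 1 / (4 * ((30 * K : ℕ) : ℝ))) ^ (M * (M - 1) / 4) := by
    intro b
    rw [sum_prod hQ1 P c hinj fun _ a => if xor v (decide ((a : ℕ) = 0)) = b then x else 1]
    refine mul_le_mul_of_nonneg_left ?_ (by positivity)
    rw [Finset.prod_const]
    refine (pow_le_pow_left₀ (hav b).1 (hav b).2 _).trans ?_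
    have e4 : (0 : ℝ) ≤ 1 / (4 * ((30 * K : ℕ) : ℝ)) := by positivity
    have e5 : 1 / (4 * ((30 * K : ℕ) : ℝ)) ≤ 1 := by
      rw [div_le_one (by positivity)]
      linarith
    refine pow_le_pow_of_le_one (by linarith) (by linarith) ?_
    rw [hP]
    exact card_Pm s (j + 1) y
  refine (Finset.sum_le_sum fun b _ => hsum b).trans ?_
  unfold Tt
  rw [if_neg (by omega), Finset.sum_const, card_univ, Fintype.card_bool]
  have e6 : ((30 * K : ℕ) : ℝ) = 30 * (K : ℝ) := by push_cast; ring
  refine le_of_eq ?_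
  rw [nsmul_eq_mul]
  push_cast
  ring

end Pool.Agent.RTX
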