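import Pool.Agent.RTX.BDef

/-!
# RTX, the base structure: numbers (`Q = 30 K`, `M = 1000 K ^ 2`)

`(1 - 2 / Q) ^ m ≥ 1 - 2 m / Q ≥ 14 / 15` for `m ≤ K`.  `Phi M s 0` has at most `2 ^ (K M) * K` terms
`2 * (1 - 1 / (120 K)) ^ (M (M - 1) / 4)`.
-/

set_option autoImplicit false

namespace Pool.Agent.RTX

open Finset Pool.Agent.RSU

private theorem q_bounds {K : ℕ} (hK : 1 ≤ K) (m : ℕ) :
    0 ≤ (1 - 2 / ((30 * K : ℕ) : ℝ)) ^ m ∧ (1 - 2 / ((30 * K : ℕ) : ℝ)) ^ m ≤ 1 := by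
  have hK' : (1 : ℝ) ≤ K := by exact_mod_cast hK
  have h1 : 2 / ((30 * K : ℕ) : ℝ) ≤ 1 := by
    rw [div_le_one (by push_cast; linarith)]
    push_cast
    linarith
  have h2 : 0 ≤ 2 / ((30 * K : ℕ) : ℝ) := by positivity
  exact ⟨pow_nonneg (by linarith) m, pow_le_one₀ (by linarith) (by linarith)⟩

theorem ph_pos {K m : ℕ} (hK : 1 ≤ K) : 0 < ph (30 * K) m := by
  have h := (q_bounds hK m).2
  unfold ph
  linarith

theorem ph_le {K m : ℕ} (hK : 1 ≤ K) (hm : m ≤ K) : ph (30 * K) m ≤ 3 / 4 := by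
  have hK' : (1 : ℝ) ≤ K := by exact_mod_cast hK
  have hm' : (m : ℝ) ≤ K := by exact_mod_cast hm
  have h1 : 2 / ((30 * K : ℕ) : ℝ) ≤ 1 := by
    rw [div_le_one (by push_cast; linarith)]
    push_cast
    linarith
  have h2 : 0 ≤ 2 / ((30 * K : ℕ) : ℝ) := by positivity
  have h3 := one_add_mul_le_pow (a := -(2 / ((30 * K : ℕ) : ℝ))) (by linarith) m
  have h4 : (m : ℝ) * (2 / ((30 * K : ℕ) : ℝ)) ≤ 1 / 15 := by
    push_cast
    rw [mul_div_assoc', div_le_div_iff₀ (by linarith) (by norm_num)]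
    nlinarith
  have h5 : (14 / 15 : ℝ) ≤ (1 - 2 / ((30 * K : ℕ) : ℝ)) ^ m := by
    have e : (1 + -(2 / ((30 * K : ℕ) : ℝ))) = 1 - 2 / ((30 * K : ℕ) : ℝ) := by ring
    rw [e] at h3
    linarith
  unfold ph
  linarith

theorem ps_pos {K m : ℕ} (hK : 1 ≤ K) : 0 < ps (30 * K) m := by
  have h := (q_bounds hK m).1
  unfold ps
  linarith

private theorem two_pow_exp (n : ℕ) : (2 : ℝ) ^ n ≤ Real.exp (n * (7 / 10)) := by
  rw [Real.exp_nat_mul]
  refine pow_le_pow_left₀ (by norm_num) ?_ n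
  have h := Real.log_two_lt_d9
  rw [← Real.exp_log (show (0 : ℝ) < 2 by norm_num)]
  exact Real.exp_le_exp.2 (by linarith)

theorem Phi_zero {K : ℕ} (hK : 1 ≤ K) (s : ℕ → Sym2 (Fin K → Fin 2) → Fin (30 * K)) :
    Phi (1000 * K ^ 2) s 0 < 1 := by
  classical
  set M := 1000 * K ^ 2 with hM
  have hK' : (1 : ℝ) ≤ K := by exact_mod_cast hK
  set c : ℝ := 2 * (1 - 1 / (4 * ((30 * K : ℕ) : ℝ))) ^ (M * (M - 1) / 4) with hc
  have hq0 : 0 ≤ 1 - 1 / (4 * ((30 * K : ℕ) : ℝ)) := by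
    have : 1 / (4 * ((30 * K : ℕ) : ℝ)) ≤ 1 := by
      rw [div_le_one (by push_cast; linarith)]
      push_cast
      linarith
    linarith
  have hc0 : 0 ≤ c := mul_nonneg (by norm_num) (pow_nonneg hq0 _)
  have h1 : Phi M s 0 ≤ ∑ _y : Fin M → (Fin K → Fin 2), ∑ _J ∈ Icc 1 K, c := by
    unfold Phi
    refine Finset.sum_le_sum fun y _ => Finset.sum_le_sum fun J hJ => ?_
    have hJ1 : ¬ J ≤ 0 := by
      have := (Finset.mem_Icc.1 hJ).1
      omega
    split_ifs with hh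
    · unfold Tt
      rw [if_neg hJ1]
    · exact hc0
  have h2 : ∑ _y : Fin M → (Fin K → Fin 2), ∑ _J ∈ Icc 1 K, c = (2 : ℝ) ^ (K * M) * (K * c) := by
    rw [Finset.sum_const, Finset.sum_const, Finset.card_univ, Fintype.card_fun, Fintype.card_fun,
      Fintype.card_fin, Fintype.card_fin, Fintype.card_fin, Nat.card_Icc, nsmul_eq_mul,
      nsmul_eq_mul, ← pow_mul]
    push_cast
    simp
  rw [h2] at h1
  refine h1.trans_lt ?_
  -- the exponent
  have hM1 : 1 ≤ M := by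
    rw [hM]
    have : 1 ≤ K ^ 2 := Nat.one_le_pow _ _ hK
    omega
  have hexp : (1 - 1 / (4 * ((30 * K : ℕ) : ℝ))) ^ (M * (M - 1) / 4) ≤
      Real.exp (-(1 / (120 * (K : ℝ))) * ((M * (M - 1) / 4 : ℕ) : ℝ)) := by
    rw [mul_comm (-(1 / (120 * (K : ℝ)))) _, Real.exp_nat_mul]
    refine pow_le_pow_left₀ hq0 ?_ _
    have h := Real.add_one_le_exp (-(1 / (120 * (K : ℝ))))
    have e : (4 * ((30 * K : ℕ) : ℝ)) = 120 * K := by push_cast; ring
    rw [e]
    linarith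
  have hdiv : ((M : ℝ) * (M - 1) - 4) / 4 ≤ ((M * (M - 1) / 4 : ℕ) : ℝ) := by
    have h := Nat.div_add_mod (M * (M - 1)) 4
    have h' := Nat.mod_lt (M * (M - 1)) (show 0 < 4 by norm_num)
    have e : ((M * (M - 1) : ℕ) : ℝ) = (M : ℝ) * (M - 1) := by
      rw [Nat.cast_mul, Nat.cast_sub hM1, Nat.cast_one]
    have h3 : (M : ℝ) * (M - 1) < 4 * ((M * (M - 1) / 4 : ℕ) : ℝ) + 4 := by
      rw [← e]
      have : M * (M - 1) < 4 * (M * (M - 1) / 4) + 4 := by omega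
      exact_mod_cast this
    linarith
  have hKexp : (K : ℝ) ≤ Real.exp K := by
    have := Real.add_one_le_exp (K : ℝ)
    linarith
  have h2exp : (2 : ℝ) ≤ Real.exp 1 := by
    have := Real.add_one_le_exp (1 : ℝ)
    linarith
  have hMr : (M : ℝ) = 1000 * (K : ℝ) ^ 2 := by
    rw [hM]
    push_cast
    ring
  calc (2 : ℝ) ^ (K * M) * (K * c)
      ≤ Real.exp (((K * M : ℕ) : ℝ) * (7 / 10)) * (Real.exp K * (Real.exp 1 *
        Real.exp (-(1 / (120 * (K : ℝ))) * ((M * (M - 1) / 4 : ℕ) : ℝ)))) := by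
        refine mul_le_mul (two_pow_exp _) (mul_le_mul hKexp ?_ hc0 (Real.exp_pos _).le)
          (mul_nonneg (by positivity) hc0) (Real.exp_pos _).le
        exact mul_le_mul h2exp hexp (pow_nonneg hq0 _) (Real.exp_pos _).le
    _ = Real.exp (((K * M : ℕ) : ℝ) * (7 / 10) + K + 1 +
        -(1 / (120 * (K : ℝ))) * ((M * (M - 1) / 4 : ℕ) : ℝ)) := by
        rw [← Real.exp_add, ← Real.exp_add, ← Real.exp_add]
        congr 1
        ring
    _ < 1 := by
        refine Real.exp_lt_one_iff.2 ?_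
        have h5 : (1 / (120 * (K : ℝ))) * (((M : ℝ) * (M - 1) - 4) / 4) ≤
            (1 / (120 * (K : ℝ))) * ((M * (M - 1) / 4 : ℕ) : ℝ) :=
          mul_le_mul_of_nonneg_left hdiv (by positivity)
        have h6 : (1 / (120 * (K : ℝ))) * (((M : ℝ) * (M - 1) - 4) / 4) =
            (((M : ℝ) * (M - 1) - 4)) / (480 * K) := by
          field_simp
          ring
        rw [h6] at h5
        have h7 : ((K * M : ℕ) : ℝ) * (7 / 10) + K + 1 < (((M : ℝ) * (M - 1) - 4)) / (480 * K) := by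
          rw [lt_div_iff₀ (by positivity)]
          push_cast
          rw [hMr]
          have hk2 : (1 : ℝ) ≤ (K : ℝ) ^ 2 := by nlinarith
          have hk4 : (K : ℝ) ^ 2 ≤ (K : ℝ) ^ 4 := by nlinarith
          have e : ((K : ℝ) * (1000 * (K : ℝ) ^ 2) * (7 / 10) + K + 1) * (480 * K) =
            336000 * (K : ℝ) ^ 4 + 480 * (K : ℝ) ^ 2 + 480 * K := by ring
          have e2 : 1000 * (K : ℝ) ^ 2 * (1000 * (K : ℝ) ^ 2 - 1) - 4 =
            1000000 * (K : ℝ) ^ 4 - 1000 * (K : ℝ) ^ 2 - 4 := by ring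
          rw [e, e2]
          have hkk : (K : ℝ) ≤ (K : ℝ) ^ 2 := by nlinarith
          nlinarith
        linarith
end Pool.Agent.RTX
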