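import Pool.Agent.RTX.BNum
import Pool.Agent.RTX.BNew

/-!
# RTX, the base structure: one level (`sum_prod`)

For each `y` and `J` the average over `t` of `Tt (update s j t) (j + 1) J y` is at most `Tt s j J y`
(pairwise `lev < J`): for `J ≤ j` the sets `Ss` do not change, the pairs `p ∈ Ss` have different
coordinates `s(pre j (y p.1), pre j (y p.2))`, and `ph_succ`, `ps_succ`; for `J = j + 1` see `BNew`
(helper98); for `J > j + 1` equality.
-/

set_option autoImplicit false

namespace Pool.Agent.RTX

open Finset Pool.Agent.RSU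

variable {K M : ℕ}

/-- equal prefixes mean a late first difference -/
private theorem BS_lev {j : ℕ} (hj : j < K) {a b : Fin K → Fin 2} (h : pre j a = pre j b) :
    j + 1 ≤ lev a b := by
  refine le_lev (by omega) fun i hi => ?_
  have h1 := congrFun h i
  unfold pre at h1
  rw [if_pos (by omega), if_pos (by omega)] at h1
  exact h1

/-- the coordinates of the pairs are different -/
private theorem BS_inj {j J : ℕ} (hj : j < K) (hJ : J ≤ j + 1) (y : Fin M → (Fin K → Fin 2))
    (hy : ∀ i k, i ≠ k → lev (y i) (y k) < J) (P : Finset (Fin M × Fin M)) (hP : P ⊆ prs M) :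
    Set.InjOn (fun p : Fin M × Fin M => s(pre j (y p.1), pre j (y p.2))) P := by
  have key : ∀ i k, pre j (y i) = pre j (y k) → i = k := by
    intro i k h
    by_contra hne
    have h1 := BS_lev hj h
    have h2 := hy i k hne
    omega
  rintro ⟨i, k⟩ hp ⟨i', k'⟩ hp' h
  have h1 : i < k := by
    have := hP hp
    unfold prs at this
    exact (mem_filter.1 this).2
  have h2 : i' < k' := by
    have := hP hp'
    unfold prs at this
    exact (mem_filter.1 this).2
  have h3 : s(pre j (y i), pre j (y k)) = s(pre j (y i'), pre j (y k')) := h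
  rw [Sym2.eq_iff] at h3
  rcases h3 with ⟨h4, h5⟩ | ⟨h4, h5⟩
  · rw [key _ _ h4, key _ _ h5]
  · have h6 := key _ _ h4
    have h7 := key _ _ h5
    rw [h6, h7] at h1
    exact absurd h1 (not_lt.2 h2.le)

/-- one step for the value of a pair -/
private theorem BS_succ {Q : ℕ} (s : ℕ → Sym2 (Fin K → Fin 2) → Fin Q) (j : ℕ)
    (t : Sym2 (Fin K → Fin 2) → Fin Q) {a b : Fin K → Fin 2} (h : lev a b ≤ j) :
    Wj (Function.update s j t) (j + 1) a b =
      xor (Wj s j a b) (decide (((t s(pre j a, pre j b) : Fin Q) : ℕ) = 0)) := by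
  have h1 : Wj (Function.update s j t) j a b = Wj s j a b :=
    Wj_congr (fun i hi => Function.update_of_ne (by omega) _ _) a b
  show (if lev a b ≤ j then xor (Wj (Function.update s j t) j a b)
    (bit (Function.update s j t) j a b) else false) = _
  rw [if_pos h, h1]
  unfold bit
  rw [Function.update_self]

/-- the average of a function of `a = 0` -/
private theorem BS_avg {Q : ℕ} (hQ : 1 ≤ Q) (u v : ℝ) :
    (∑ a : Fin Q, if ((a : ℕ) = 0) then u else v) / Q = (1 - 1 / (Q : ℝ)) * v + 1 / (Q : ℝ) * u := by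
  obtain ⟨q, rfl⟩ : ∃ q, Q = q + 1 := ⟨Q - 1, by omega⟩
  rw [Fin.sum_univ_succ]
  have h1 : ∑ i : Fin q, (if (((i.succ : Fin (q + 1)) : ℕ) = 0) then u else v) = q * v := by
    rw [Finset.sum_congr rfl (g := fun _ => v) (fun i _ => if_neg (by simp))]
    simp
  rw [h1]
  have h2 : ((q + 1 : ℕ) : ℝ) ≠ 0 := by positivity
  have h3 : (((0 : Fin (q + 1)) : ℕ) = 0) := rfl
  rw [if_pos h3]
  field_simp
  push_cast
  ring

theorem Tt_old (hK : 1 ≤ K) (s : ℕ → Sym2 (Fin K → Fin 2) → Fin (30 * K)) {j J : ℕ} (hj : j < K)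
    (hJ1 : 1 ≤ J) (hJ : J ≤ j) (y : Fin M → (Fin K → Fin 2))
    (hy : ∀ i k, i ≠ k → lev (y i) (y k) < J) :
    ∑ t : Sym2 (Fin K → Fin 2) → Fin (30 * K), Tt (Function.update s j t) (j + 1) J y ≤
      ((30 * K : ℕ) : ℝ) ^ Fintype.card (Sym2 (Fin K → Fin 2)) * Tt s j J y := by
  classical
  have hlev : ∀ p ∈ prs M, lev (y p.1) (y p.2) < J := by
    intro p hp
    unfold prs at hp
    exact hy _ _ (ne_of_lt (mem_filter.1 hp).2)
  have hW : ∀ (t : Sym2 (Fin K → Fin 2) → Fin (30 * K)) (i : ℕ), i ≤ j → ∀ a b,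
      Wj (Function.update s j t) i a b = Wj s i a b := fun t i hi a b =>
    Wj_congr (fun i' hi' => Function.update_of_ne (by omega) _ _) a b
  have hPv : ∀ (t : Sym2 (Fin K → Fin 2) → Fin (30 * K)) (v : Bool),
      Pv (Function.update s j t) J y v = Pv s J y v := by
    intro t v
    unfold Pv
    apply filter_congr
    intro p _
    rw [hW t (J - 1) (by omega)]
  have hPm : ∀ (t : Sym2 (Fin K → Fin 2) → Fin (30 * K)),
      Pm (Function.update s j t) J y = Pm s J y := by
    intro t
    unfold Pm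
    rw [hPv, hPv]
  have hSs : ∀ (t : Sym2 (Fin K → Fin 2) → Fin (30 * K)) (b : Bool),
      Ss (Function.update s j t) J b y = Ss s J b y := by
    intro t b
    unfold Ss
    rw [hPm]
    apply filter_congr
    intro p _
    rw [hW t J hJ]
  have hsub : ∀ b, Ss s J b y ⊆ prs M := by
    intro b
    refine (filter_subset _ _).trans ?_
    unfold Pm Pv
    split_ifs
    · exact filter_subset _ _
    · exact filter_subset _ _
  have hm : K - j = (K - (j + 1)) + 1 := by omega
  have e1 : ∀ t : Sym2 (Fin K → Fin 2) → Fin (30 * K), Tt (Function.update s j t) (j + 1) J y =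
      ∑ b : Bool, ∏ p ∈ Ss s J b y, (if ((t s(pre j (y p.1), pre j (y p.2)) : Fin (30 * K)) : ℕ) = 0
        then (if Wj s j (y p.1) (y p.2) = b then ps (30 * K) (K - (j + 1))
          else ph (30 * K) (K - (j + 1)))
        else (if Wj s j (y p.1) (y p.2) = b then ph (30 * K) (K - (j + 1))
          else ps (30 * K) (K - (j + 1)))) := by
    intro t
    unfold Tt
    rw [if_pos (by omega)]
    refine sum_congr rfl fun b _ => ?_
    rw [hSs]
    refine prod_congr rfl fun p hp => ?_
    have h1 := hlev p (hsub b hp)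
    rw [BS_succ s j t (by omega)]
    by_cases h2 : ((t s(pre j (y p.1), pre j (y p.2)) : Fin (30 * K)) : ℕ) = 0
    · rw [if_pos h2, decide_eq_true h2]
      cases Wj s j (y p.1) (y p.2) <;> cases b <;> simp
    · rw [if_neg h2, decide_eq_false h2]
      cases Wj s j (y p.1) (y p.2) <;> cases b <;> simp
  rw [sum_congr rfl fun t _ => e1 t, sum_comm]
  unfold Tt
  rw [if_pos hJ, mul_sum]
  refine le_of_eq (sum_congr rfl fun b _ => ?_)
  rw [sum_prod (by omega) (Ss s J b y) (fun p => s(pre j (y p.1), pre j (y p.2)))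
    (BS_inj hj (by omega) y hy _ (hsub b)) (fun p a => if (a : ℕ) = 0
        then (if Wj s j (y p.1) (y p.2) = b then ps (30 * K) (K - (j + 1))
          else ph (30 * K) (K - (j + 1)))
        else (if Wj s j (y p.1) (y p.2) = b then ph (30 * K) (K - (j + 1))
          else ps (30 * K) (K - (j + 1))))]
  congr 1
  refine prod_congr rfl fun p _ => ?_
  rw [BS_avg (by omega), hm]
  by_cases h1 : Wj s j (y p.1) (y p.2) = b
  · rw [if_pos h1, if_pos h1, if_pos h1, ph_succ]
  · rw [if_neg h1, if_neg h1, if_neg h1, ps_succ]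

theorem exists_step (hK : 1 ≤ K) (s : ℕ → Sym2 (Fin K → Fin 2) → Fin (30 * K)) {j : ℕ}
    (hj : j < K) : ∃ t : Sym2 (Fin K → Fin 2) → Fin (30 * K),
      Phi M (Function.update s j t) (j + 1) ≤ Phi M s j := by
  classical
  have hsum : ∑ t : Sym2 (Fin K → Fin 2) → Fin (30 * K), Phi M (Function.update s j t) (j + 1) ≤
      ((30 * K : ℕ) : ℝ) ^ Fintype.card (Sym2 (Fin K → Fin 2)) * Phi M s j := by
    unfold Phi
    rw [sum_comm, mul_sum]
    refine sum_le_sum fun y _ => ?_
    rw [sum_comm, mul_sum]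
    refine sum_le_sum fun J hJ => ?_
    rw [mem_Icc] at hJ
    by_cases hy : ∀ i k, i ≠ k → lev (y i) (y k) < J
    · rw [if_pos hy]
      simp only [if_pos hy]
      rcases Nat.lt_trichotomy J (j + 1) with h | h | h
      · exact Tt_old hK s hj hJ.1 (by omega) y hy
      · subst h
        exact Tt_new hK s hj y hy
      · have e1 : ∀ t : Sym2 (Fin K → Fin 2) → Fin (30 * K),
            Tt (Function.update s j t) (j + 1) J y = Tt s j J y := by
          intro t
          unfold Tt
          rw [if_neg (by omega), if_neg (by omega)]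
        rw [sum_congr rfl fun t _ => e1 t, sum_const, card_univ, Fintype.card_fun,
          Fintype.card_fin, nsmul_eq_mul]
        push_cast
        exact le_rfl
    · rw [if_neg hy]
      simp only [if_neg hy]
      simp
  by_contra hcon
  push Not at hcon
  have hne : Nonempty (Fin (30 * K)) := ⟨⟨0, by omega⟩⟩
  have h1 : ∑ _t : Sym2 (Fin K → Fin 2) → Fin (30 * K), Phi M s j <
      ∑ t : Sym2 (Fin K → Fin 2) → Fin (30 * K), Phi M (Function.update s j t) (j + 1) :=
    sum_lt_sum_of_nonempty univ_nonempty fun t _ => hcon t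
  rw [sum_const, card_univ, Fintype.card_fun, Fintype.card_fin, nsmul_eq_mul] at h1
  push_cast at h1 hsum
  linarith

end Pool.Agent.RTX
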