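import Pool.Agent.RTX.BStep
import Pool.Agent.RTX.BMix

/-!
# RTX, the base structure

`Q = 30 K`, `q = 1 / Q`; `s j : Sym2 (Fin K → Fin 2) → Fin Q` for `j < K`; `bit s j a b` says
`s j s(pre j a, pre j b) = 0`, `pre j a` = `a` with the coordinates `> j` replaced by `0`;
`Wj s j a b` = parity of the number of `i`, `lev a b ≤ i < j`, with `bit s i a b`.
For `1 ≤ J ≤ K` and a tuple `y` of leaves with pairwise `lev < J`: `Pm s J y` = pairs `i < k` with
`Wj s (J - 1) (y i) (y k) = v`, `v` the majority value (at least half of the pairs);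
`Ss s J b y` = those pairs of `Pm` with `Wj s J (y i) (y k) = b`.  (Both depend only on the nodes
of level `J` of `y` and on `s 0, ..., s (J - 1)`.)
Potential, after `s 0, ..., s (j - 1)` have been chosen: `Phi M s j`.
One can choose `s j` with `Phi (j + 1) ≤ Phi j` (`exists_step`); `Phi 0 < 1`; so `Phi K < 1`, and
`∏ (1/2 or 8) < 1` says that less than a quarter of the pairs of `Ss` have changed.
-/

set_option autoImplicit false

namespace Pool.Agent.RTX

open Finset Pool.Agent.RSU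

theorem exists_Phi {K : ℕ} (hK : 1 ≤ K) (j : ℕ) (hj : j ≤ K) :
    ∃ s : ℕ → Sym2 (Fin K → Fin 2) → Fin (30 * K), Phi (1000 * K ^ 2) s j < 1 := by
  induction j with
  | zero => exact ⟨fun _ _ => ⟨0, by omega⟩, Phi_zero hK _⟩
  | succ j ih =>
    obtain ⟨s, hs⟩ := ih (by omega)
    obtain ⟨t, ht⟩ := exists_step (M := 1000 * K ^ 2) hK s (by omega : j < K)
    exact ⟨_, lt_of_le_of_lt ht hs⟩

theorem exists_base (K : ℕ) (hK : 1 ≤ K) : ∃ W : (Fin K → Fin 2) → (Fin K → Fin 2) → Bool,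
    (∀ a b, W a b = W b a) ∧ GoodW (1000 * K ^ 2) W := by
  obtain ⟨s, hs⟩ := exists_Phi hK K le_rfl
  refine ⟨Wj s K, Wj_comm s K, goodW_of_Phi hK ?_ s hs⟩
  nlinarith [Nat.one_le_pow 2 K hK]

end Pool.Agent.RTX
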