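import Pool.Agent.RSU.Gad
import Pool.Agent.RSU.Ker

/-!
# RTX (helper88): two-sided regular sets are exponentially small, MP_b47c0e_co

Leaves `Fin K → Fin n`, `K = r k`.  Two different leaves `a, b` with first difference at level
`lev a b` have density `γ * (2 (lev a b mod r) + [T a b])`, `T` a symmetric relation of leaves with
the property `Steer`: among any `M` different nodes of one level there are pairs of nodes which are
mostly unrelated and pairs which are mostly related, however one chooses leaves below the nodes.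
-/

set_option autoImplicit false

namespace Pool.Agent.RTX

open Finset Pool.Agent.RSU

variable {K n : ℕ}

/-- the index of the value between two leaves -/
def col (T : (Fin K → Fin n) → (Fin K → Fin n) → Bool) (r : ℕ) (a b : Fin K → Fin n) : ℕ :=
  2 * (lev a b % r) + (T a b).toNat

/-- the density between two leaves -/
noncomputable def D1 (T : (Fin K → Fin n) → (Fin K → Fin n) → Bool) (r : ℕ) (γ : ℝ)
    (a b : Fin K → Fin n) : ℝ := if a = b then 0 else γ * col T r a b

/-- edges between two sets of leaves of weight `μ` -/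
noncomputable def E1 (T : (Fin K → Fin n) → (Fin K → Fin n) → Bool) (r : ℕ) (γ : ℝ)
    (μ : (Fin K → Fin n) → ℝ) (X Y : Finset (Fin K → Fin n)) : ℝ :=
  ∑ a ∈ X, ∑ b ∈ Y, μ a * μ b * D1 T r γ a b

/-- For the `M` nodes of level `J` of the leaves `x i`, there are pairs `S` which are mostly unrelated
and pairs `S'` which are mostly related, for every choice `y i` of leaves below the nodes. -/
def Mix (W : (Fin K → Fin n) → (Fin K → Fin n) → Bool) {M : ℕ} (J : ℕ)
    (x : Fin M → (Fin K → Fin n)) : Prop :=
  ∃ S S' : Finset (Fin M × Fin M), (∀ p ∈ S, p.1 ≠ p.2) ∧ (∀ p ∈ S', p.1 ≠ p.2) ∧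
    ∀ y : Fin M → (Fin K → Fin n), (∀ i, J ≤ lev (y i) (x i)) →
      4 * (S.filter fun p => W (y p.1) (y p.2) = true).card < S.card ∧
      4 * (S'.filter fun p => W (y p.1) (y p.2) = false).card < S'.card

/-- the base structure (`r = 1`) -/
def GoodW (M : ℕ) (W : (Fin K → Fin n) → (Fin K → Fin n) → Bool) : Prop :=
  ∀ J ≤ K, ∀ x : Fin M → (Fin K → Fin n), (∀ i j, i ≠ j → lev (x i) (x j) < J) → Mix W J x

/-- the same for nodes whose first differences are in one residue class modulo `r` -/
def Steer (M r : ℕ) (T : (Fin K → Fin n) → (Fin K → Fin n) → Bool) : Prop :=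
  ∀ J ≤ K, ∀ x : Fin M → (Fin K → Fin n), (∀ i j, i ≠ j → lev (x i) (x j) < J) →
    (∃ ρ, ∀ i j, i ≠ j → lev (x i) (x j) % r = ρ) → Mix T J x

end Pool.Agent.RTX
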