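import Pool.Agent.RTX.Base

/-!
# RTX, from the base structure to `r` residue classes

`T a b = W (cls ρ a) (cls ρ b)`, `ρ = lev a b % r`, `cls ρ a t = a (t r + ρ)`; if
`lev a b % r = ρ` then `lev (cls ρ a) (cls ρ b) = lev a b / r`; level `J` of the leaves is the level
`#{t | t r + ρ < J}` of the classes `ρ`.
-/

set_option autoImplicit false

namespace Pool.Agent.RTX

open Finset Pool.Agent.RSU

/-- the first difference -/
private theorem lf_cases {p q : ℕ} (a b : Fin p → Fin q) :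
    (∃ (k : ℕ) (hk : k < p), (∀ j : Fin p, (j : ℕ) < k → a j = b j) ∧ a ⟨k, hk⟩ ≠ b ⟨k, hk⟩ ∧
      lev a b = k) ∨ (a = b ∧ lev a b = p) := by
  classical
  by_cases h : ∃ k, ∃ hk : k < p, a ⟨k, hk⟩ ≠ b ⟨k, hk⟩
  · left
    obtain ⟨hk, hne⟩ := Nat.find_spec h
    have hmin : ∀ j : Fin p, (j : ℕ) < Nat.find h → a j = b j := by
      intro j hj
      by_contra hcon
      exact Nat.find_min h hj ⟨j.2, hcon⟩
    exact ⟨Nat.find h, hk, hmin, hne, lev_eq hk hmin hne⟩
  · right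
    push Not at h
    have hab : a = b := by
      funext j
      exact h j j.2
    refine ⟨hab, le_antisymm (lev_le a b) (le_lev le_rfl ?_)⟩
    intro j _
    rw [hab]

private theorem lf_agree {p q : ℕ} {a b : Fin p → Fin q} {j : Fin p} (hj : (j : ℕ) < lev a b) :
    a j = b j := by
  rcases lf_cases a b with ⟨k, hk, h1, -, h3⟩ | ⟨h1, -⟩
  · exact h1 j (by omega)
  · rw [h1]

/-- the coordinates in a residue class -/
private def lf_cl (r k : ℕ) (ρ : Fin r) (a : Fin (r * k) → Fin 2) : Fin k → Fin 2 :=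
  fun t => a ⟨t * r + ρ, by
    have h1 : (t : ℕ) + 1 ≤ k := t.2
    have h2 : ((t : ℕ) + 1) * r ≤ k * r := Nat.mul_le_mul_right r h1
    have h3 := ρ.2
    have h4 : ((t : ℕ) + 1) * r = t * r + r := by ring
    rw [mul_comm r k]
    omega⟩

/-- the first difference of the residue class -/
private theorem lf_lev {r k : ℕ} (ρ : Fin r) {a b : Fin (r * k) → Fin 2}
    (hlt : lev a b < r * k) (hρ : lev a b % r = ρ) :
    lev (lf_cl r k ρ a) (lf_cl r k ρ b) = lev a b / r := by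
  rcases lf_cases a b with ⟨l, hl, h1, h2, h3⟩ | ⟨h1, h3⟩
  · have hr : 0 < r := lt_of_le_of_lt (Nat.zero_le _) ρ.2
    have h4 : l / r * r + ρ = l := by
      rw [← hρ, h3]
      exact Nat.div_add_mod' l r
    have h5 : l / r < k := by
      rw [Nat.div_lt_iff_lt_mul hr, mul_comm k r]
      exact hl
    rw [h3]
    refine lev_eq h5 ?_ ?_
    · intro t ht
      refine h1 _ ?_
      change (t : ℕ) * r + ρ < l
      have h6 : ((t : ℕ) + 1) * r ≤ l / r * r := Nat.mul_le_mul_right r ht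
      have h7 : ((t : ℕ) + 1) * r = t * r + r := by ring
      have h8 := ρ.2
      omega
    · change a ⟨l / r * r + ρ, _⟩ ≠ b ⟨l / r * r + ρ, _⟩
      simp only [h4]
      exact h2
  · omega

theorem exists_steer (r k : ℕ) (hr : 1 ≤ r) (hk : 1 ≤ k) :
    ∃ T : (Fin (r * k) → Fin 2) → (Fin (r * k) → Fin 2) → Bool,
      (∀ a b, T a b = T b a) ∧ Steer (1000 * k ^ 2) r T := by
  obtain ⟨W, hW, hG⟩ := exists_base k hk
  refine ⟨fun a b => W (lf_cl r k ⟨lev a b % r, Nat.mod_lt _ hr⟩ a)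
    (lf_cl r k ⟨lev a b % r, Nat.mod_lt _ hr⟩ b), ?_, ?_⟩
  · intro a b
    simp only [lev_comm b a]
    exact hW _ _
  · intro J hJ x hx hρ
    obtain ⟨ρ, hρ⟩ := hρ
    have hM : 1 < 1000 * k ^ 2 := by
      have := Nat.one_le_pow 2 k hk
      omega
    have hρr : ρ < r := by
      rw [← hρ ⟨0, by omega⟩ ⟨1, hM⟩ (by simp)]
      exact Nat.mod_lt _ hr
    obtain ⟨J', hJ'⟩ : ∃ J' : ℕ, J' = (J + (r - 1) - ρ) / r := ⟨_, rfl⟩
    -- `t < J'` iff `t r + ρ < J`
    have hiff : ∀ t : ℕ, t < J' ↔ t * r + ρ < J := by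
      intro t
      rw [hJ', Nat.lt_iff_add_one_le, Nat.le_div_iff_mul_le (by omega), add_mul, one_mul]
      omega
    have hJk : J' ≤ k := by
      by_contra hcon
      push Not at hcon
      have h1 := (hiff k).1 hcon
      have h2 : k * r = r * k := mul_comm k r
      omega
    have hlt : ∀ i j, i ≠ j → lev (x i) (x j) < r * k := fun i j hij => (hx i j hij).trans_le hJ
    have hx' : ∀ i j, i ≠ j → lev (lf_cl r k ⟨ρ, hρr⟩ (x i)) (lf_cl r k ⟨ρ, hρr⟩ (x j)) < J' := by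
      intro i j hij
      rw [lf_lev ⟨ρ, hρr⟩ (hlt i j hij) (hρ i j hij), hiff]
      have h1 := Nat.div_add_mod' (lev (x i) (x j)) r
      rw [hρ i j hij] at h1
      rw [h1]
      exact hx i j hij
    obtain ⟨S, S', hS, hS', hmix⟩ := hG J' hJk (fun i => lf_cl r k ⟨ρ, hρr⟩ (x i)) hx'
    refine ⟨S, S', hS, hS', ?_⟩
    intro y hy
    have hxy : ∀ i j, i ≠ j → lev (y i) (y j) = lev (x i) (x j) := by
      intro i j hij
      rcases lf_cases (x i) (x j) with ⟨l, hl, h1, h2, h3⟩ | ⟨h1, h3⟩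
      · have hlJ : l < J := by
          rw [← h3]
          exact hx i j hij
        have hag : ∀ (i : Fin (1000 * k ^ 2)) (c : Fin (r * k)), (c : ℕ) ≤ l → y i c = x i c :=
          fun i c hc => lf_agree (by have := hy i; omega)
        rw [h3]
        refine lev_eq hl ?_ ?_
        · intro c hc
          rw [hag i c hc.le, hag j c hc.le]
          exact h1 c hc
        · rw [hag i _ le_rfl, hag j _ le_rfl]
          exact h2
      · have := hlt i j hij
        omega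
    have hy' : ∀ i, J' ≤ lev (lf_cl r k ⟨ρ, hρr⟩ (y i)) (lf_cl r k ⟨ρ, hρr⟩ (x i)) := by
      intro i
      refine le_lev hJk ?_
      intro t ht
      exact lf_agree (a := y i) (b := x i) (((hiff t).1 ht).trans_le (hy i))
    obtain ⟨g1, g2⟩ := hmix (fun i => lf_cl r k ⟨ρ, hρr⟩ (y i)) hy'
    have hT : ∀ i j, i ≠ j →
        W (lf_cl r k ⟨lev (y i) (y j) % r, Nat.mod_lt _ hr⟩ (y i))
          (lf_cl r k ⟨lev (y i) (y j) % r, Nat.mod_lt _ hr⟩ (y j)) =
        W (lf_cl r k ⟨ρ, hρr⟩ (y i)) (lf_cl r k ⟨ρ, hρr⟩ (y j)) := by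
      intro i j hij
      have h1 : (⟨lev (y i) (y j) % r, Nat.mod_lt _ hr⟩ : Fin r) = ⟨ρ, hρr⟩ := by
        apply Fin.ext
        change lev (y i) (y j) % r = ρ
        rw [hxy i j hij, hρ i j hij]
      rw [h1]
    refine ⟨?_, ?_⟩
    · have h1 : (S.filter fun p => W (lf_cl r k ⟨lev (y p.1) (y p.2) % r, Nat.mod_lt _ hr⟩ (y p.1))
          (lf_cl r k ⟨lev (y p.1) (y p.2) % r, Nat.mod_lt _ hr⟩ (y p.2)) = true) =
          S.filter fun p => W (lf_cl r k ⟨ρ, hρr⟩ (y p.1)) (lf_cl r k ⟨ρ, hρr⟩ (y p.2)) = true :=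
        filter_congr fun p hp => by rw [hT p.1 p.2 (hS p hp)]
      rw [← h1] at g1
      exact g1
    · have h1 : (S'.filter fun p => W (lf_cl r k ⟨lev (y p.1) (y p.2) % r, Nat.mod_lt _ hr⟩ (y p.1))
          (lf_cl r k ⟨lev (y p.1) (y p.2) % r, Nat.mod_lt _ hr⟩ (y p.2)) = false) =
          S'.filter fun p => W (lf_cl r k ⟨ρ, hρr⟩ (y p.1)) (lf_cl r k ⟨ρ, hρr⟩ (y p.2)) = false :=
        filter_congr fun p hp => by rw [hT p.1 p.2 (hS' p hp)]
      rw [← h1] at g2
      exact g2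

end Pool.Agent.RTX
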