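import Pool.Agent.RTX.Defs
import Pool.Agent.RTX.Avg
import Pool.Agent.RTU.Ker

/-!
# RTX, kernel lemma (helper88)

`vis_lt`: at every level there are less than `M` nodes of weight at least `α V` (visible nodes): the
first differences of visible nodes are at window levels, so in one residue class; by `Steer` and
averaging two pairs of them have densities which differ by more than `γ / 2 > 2 δ₁`.
`leak_block`: between two window levels a visible node loses at most `(n + 2) α V` (`loss`);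
`leak_node`: at a window level at most `n α V`.
-/

set_option autoImplicit false

namespace Pool.Agent.RTX

open Finset Pool.Agent.RSU
open Pool.Agent.RTU (lev_self lev_of_lt Nd mem_Nd wt_mono wt_union_le Low High Win win_mod Ls mem_Ls
  wn wn_le)

variable {K n : ℕ}

theorem col_le (T : (Fin K → Fin n) → (Fin K → Fin n) → Bool) (r : ℕ) (a b : Fin K → Fin n) :
    col T r a b ≤ 2 * (lev a b % r) + 1 := by
  unfold col
  have := Bool.toNat_le (T a b)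
  omega

theorem le_col (T : (Fin K → Fin n) → (Fin K → Fin n) → Bool) (r : ℕ) (a b : Fin K → Fin n) :
    2 * (lev a b % r) ≤ col T r a b := by
  unfold col
  omega

theorem E1_le {T : (Fin K → Fin n) → (Fin K → Fin n) → Bool} {r : ℕ} {γ t : ℝ}
    {μ : (Fin K → Fin n) → ℝ} (h0 : ∀ a, 0 ≤ μ a) {X Y : Finset (Fin K → Fin n)}
    (h : ∀ a ∈ X, ∀ b ∈ Y, D1 T r γ a b ≤ t) : E1 T r γ μ X Y ≤ t * (wt μ X * wt μ Y) := by
  unfold E1
  rw [wt_mul, mul_sum]
  refine sum_le_sum fun a ha => ?_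
  rw [mul_sum]
  refine sum_le_sum fun b hb => ?_
  rw [mul_comm t]
  exact mul_le_mul_of_nonneg_left (h a ha b hb) (mul_nonneg (h0 a) (h0 b))

theorem le_E1 {T : (Fin K → Fin n) → (Fin K → Fin n) → Bool} {r : ℕ} {γ t : ℝ}
    {μ : (Fin K → Fin n) → ℝ} (h0 : ∀ a, 0 ≤ μ a) {X Y : Finset (Fin K → Fin n)}
    (h : ∀ a ∈ X, ∀ b ∈ Y, t ≤ D1 T r γ a b) : t * (wt μ X * wt μ Y) ≤ E1 T r γ μ X Y := by
  unfold E1
  rw [wt_mul, mul_sum]
  refine sum_le_sum fun a ha => ?_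
  rw [mul_sum]
  refine sum_le_sum fun b hb => ?_
  rw [mul_comm t]
  exact mul_le_mul_of_nonneg_left (h a ha b hb) (mul_nonneg (h0 a) (h0 b))

theorem Nd_eq {a x : Fin K → Fin n} {l : ℕ} (hl : l ≤ K) (h : l ≤ lev a x) : Nd a l = Nd x l := by
  have h1 := (Pool.Agent.RTU.ag_iff hl).2 h
  ext b
  rw [mem_Nd, mem_Nd, ← Pool.Agent.RTU.ag_iff hl, ← Pool.Agent.RTU.ag_iff hl]
  refine forall_congr' fun j => imp_congr_right fun hj => ?_
  rw [h1 j hj]

theorem self_mem_Nd (x : Fin K → Fin n) {l : ℕ} (hl : l ≤ K) : x ∈ Nd x l := by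
  rw [mem_Nd, lev_self]
  exact hl

theorem lev_two {a b x y : Fin K → Fin n} {l : ℕ} (hl : l ≤ K) (hxy : lev x y < l)
    (ha : l ≤ lev a x) (hb : l ≤ lev b y) : lev a b = lev x y ∧ a ≠ b := by
  obtain ⟨e1, -⟩ := lev_of_lt hl hxy hb
  have e2 : lev b x < l := by rw [lev_comm, e1]; exact hxy
  obtain ⟨e3, e4⟩ := lev_of_lt hl e2 ha
  refine ⟨?_, e4.symm⟩
  rw [lev_comm a b, e3, lev_comm b x, e1]

/-! ### loss at low and high levels -/

theorem loss {T : (Fin K → Fin n) → (Fin K → Fin n) → Bool} {r : ℕ} {γ α δ₁ δ₂ D V : ℝ}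
    {μ : (Fin K → Fin n) → ℝ} (hγ0 : 0 ≤ γ) (hα : 0 < α) (h12 : δ₁ < δ₂)
    (h0 : ∀ a, 0 ≤ μ a) (hV0 : 0 < V)
    (H : ∀ X Y : Finset (Fin K → Fin n), α * V ≤ wt μ X → α * V ≤ wt μ Y →
      |E1 T r γ μ X Y - D * (wt μ X * wt μ Y)| ≤ δ₁ * (wt μ X * wt μ Y))
    (x : Fin K → Fin n) {l : ℕ} (hl : l ≤ K) (hx : α * V ≤ wt μ (Nd x l)) :
    wt μ (Ls r γ δ₂ D x l) ≤ 2 * (α * V) := by
  classical
  have hA : 0 < α * V := mul_pos hα hV0
  obtain ⟨Lo, hLo⟩ : ∃ Lo : Finset (Fin K → Fin n),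
      Lo = univ.filter fun b => lev b x < l ∧ Low r γ δ₂ D (lev b x) := ⟨_, rfl⟩
  obtain ⟨Hi, hHi⟩ : ∃ Hi : Finset (Fin K → Fin n),
      Hi = univ.filter fun b => lev b x < l ∧ High r γ δ₂ D (lev b x) := ⟨_, rfl⟩
  have hsub : Ls r γ δ₂ D x l ⊆ Lo ∪ Hi := by
    intro b hb
    rw [mem_Ls] at hb
    rw [mem_union, hLo, hHi, mem_filter, mem_filter]
    by_cases h1 : Low r γ δ₂ D (lev b x)
    · exact Or.inl ⟨mem_univ _, hb.1, h1⟩
    · refine Or.inr ⟨mem_univ _, hb.1, ?_⟩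
      by_contra h2
      exact hb.2 ⟨h1, h2⟩
  have hlo : wt μ Lo < α * V := by
    by_contra hc
    push Not at hc
    have h1 := (abs_le.1 (H Lo (Nd x l) hc hx)).1
    have h2 : 0 < wt μ Lo * wt μ (Nd x l) := mul_pos (by linarith) (by linarith)
    have h3 : E1 T r γ μ Lo (Nd x l) ≤ (D - δ₂) * (wt μ Lo * wt μ (Nd x l)) := by
      refine E1_le h0 fun a ha b hb => ?_
      rw [hLo, mem_filter] at ha
      rw [mem_Nd] at hb
      obtain ⟨e1, e2⟩ := lev_of_lt hl ha.2.1 hb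
      unfold D1
      rw [if_neg e2]
      have h4 : ((col T r a b : ℕ) : ℝ) ≤ 2 * ((lev a x % r : ℕ) : ℝ) + 1 := by
        have := col_le T r a b
        rw [e1] at this
        exact_mod_cast this
      exact (mul_le_mul_of_nonneg_left h4 hγ0).trans ha.2.2
    nlinarith
  have hhi : wt μ Hi < α * V := by
    by_contra hc
    push Not at hc
    have h1 := (abs_le.1 (H Hi (Nd x l) hc hx)).2
    have h2 : 0 < wt μ Hi * wt μ (Nd x l) := mul_pos (by linarith) (by linarith)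
    have h3 : (D + δ₂) * (wt μ Hi * wt μ (Nd x l)) ≤ E1 T r γ μ Hi (Nd x l) := by
      refine le_E1 h0 fun a ha b hb => ?_
      rw [hHi, mem_filter] at ha
      rw [mem_Nd] at hb
      obtain ⟨e1, e2⟩ := lev_of_lt hl ha.2.1 hb
      unfold D1
      rw [if_neg e2]
      have h4 : 2 * ((lev a x % r : ℕ) : ℝ) ≤ ((col T r a b : ℕ) : ℝ) := by
        have := le_col T r a b
        rw [e1] at this
        exact_mod_cast this
      exact ha.2.2.trans (mul_le_mul_of_nonneg_left h4 hγ0)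
    nlinarith
  have := (wt_mono h0 hsub).trans (wt_union_le h0 Lo Hi)
  linarith

/-! ### the number of visible nodes -/

open scoped Classical in
/-- the visible nodes of level `l` -/
noncomputable def Fl (μ : (Fin K → Fin n) → ℝ) (A : ℝ) (l : ℕ) : Finset (Finset (Fin K → Fin n)) :=
  (univ.image fun a => Nd a l).filter fun X => A ≤ wt μ X

theorem mem_Fl {μ : (Fin K → Fin n) → ℝ} {A : ℝ} {l : ℕ} {X : Finset (Fin K → Fin n)} :
    X ∈ Fl μ A l ↔ (∃ a, Nd a l = X) ∧ A ≤ wt μ X := by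
  classical
  unfold Fl
  simp

/-- density between two different nodes -/
theorem E1_nodes {T : (Fin K → Fin n) → (Fin K → Fin n) → Bool} {r : ℕ} {γ : ℝ}
    {μ : (Fin K → Fin n) → ℝ} {x y : Fin K → Fin n} {l : ℕ} (hl : l ≤ K) (hxy : lev x y < l) :
    E1 T r γ μ (Nd x l) (Nd y l) =
      γ * (2 * ((lev x y % r : ℕ) : ℝ) * (wt μ (Nd x l) * wt μ (Nd y l)) +
        ∑ a ∈ Nd x l, ∑ b ∈ Nd y l, μ a * μ b * ((T a b).toNat : ℝ)) := by
  unfold E1
  rw [wt_mul, mul_sum, ← sum_add_distrib, mul_sum]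
  refine sum_congr rfl fun a ha => ?_
  rw [mul_sum, ← sum_add_distrib, mul_sum]
  refine sum_congr rfl fun b hb => ?_
  rw [mem_Nd] at ha hb
  obtain ⟨e1, e2⟩ := lev_two hl hxy ha hb
  unfold D1 col
  rw [if_neg e2, e1]
  push_cast
  ring

theorem vis_lt {T : (Fin K → Fin n) → (Fin K → Fin n) → Bool} {r M : ℕ}
    {γ α δ₁ δ₂ D V : ℝ} {μ : (Fin K → Fin n) → ℝ} (hM : 2 ≤ M)
    (hT : Steer M r T) (hα : 0 < α) (h12 : δ₁ < δ₂) (hγ0 : 0 ≤ γ) (hγ2 : 2 * δ₂ < γ)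
    (hγ : 4 * δ₂ ≤ γ) (h0 : ∀ a, 0 ≤ μ a) (hV0 : 0 < V)
    (H : ∀ X Y : Finset (Fin K → Fin n), α * V ≤ wt μ X → α * V ≤ wt μ Y →
      |E1 T r γ μ X Y - D * (wt μ X * wt μ Y)| ≤ δ₁ * (wt μ X * wt μ Y))
    {l : ℕ} (hl : l ≤ K) : (Fl μ (α * V) l).card < M := by
  classical
  have hA : 0 < α * V := mul_pos hα hV0
  by_contra hcon
  push Not at hcon
  obtain ⟨F, hF, hFc⟩ := exists_subset_card_eq hcon
  obtain ⟨e⟩ : Nonempty (F ≃ Fin M) := ⟨F.equivFinOfCardEq hFc⟩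
  have hx : ∀ i : Fin M, ∃ a, Nd a l = ((e.symm i : F) : Finset (Fin K → Fin n)) := fun i =>
    (mem_Fl.1 (hF (e.symm i).2)).1
  choose x hx using hx
  have hvis : ∀ i, α * V ≤ wt μ (Nd (x i) l) := by
    intro i
    rw [hx]
    exact (mem_Fl.1 (hF (e.symm i).2)).2
  have hpos : ∀ i, 0 < wt μ (Nd (x i) l) := fun i => lt_of_lt_of_le hA (hvis i)
  have hlev : ∀ i j, i ≠ j → lev (x i) (x j) < l := by
    intro i j hij
    by_contra hc
    push Not at hc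
    have := Nd_eq hl hc
    rw [hx, hx] at this
    exact hij (e.symm.injective (Subtype.ext this))
  have hB0 : ∀ i j, 0 ≤ ∑ a ∈ Nd (x i) l, ∑ b ∈ Nd (x j) l, μ a * μ b * ((T a b).toNat : ℝ) :=
    fun i j => sum_nonneg fun a _ => sum_nonneg fun b _ =>
      mul_nonneg (mul_nonneg (h0 a) (h0 b)) (Nat.cast_nonneg _)
  have hB1 : ∀ i j, ∑ a ∈ Nd (x i) l, ∑ b ∈ Nd (x j) l, μ a * μ b * ((T a b).toNat : ℝ) ≤
      wt μ (Nd (x i) l) * wt μ (Nd (x j) l) := by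
    intro i j
    rw [wt_mul]
    refine sum_le_sum fun a _ => sum_le_sum fun b _ => ?_
    have h1 : ((T a b).toNat : ℝ) ≤ 1 := by exact_mod_cast Bool.toNat_le (T a b)
    exact mul_le_of_le_one_right (mul_nonneg (h0 a) (h0 b)) h1
  have hwin : ∀ i j, i ≠ j → Win r γ δ₂ D (lev (x i) (x j)) := by
    intro i j hij
    have h1 := abs_le.1 (H _ _ (hvis i) (hvis j))
    rw [E1_nodes hl (hlev i j hij)] at h1
    have hw : 0 < wt μ (Nd (x i) l) * wt μ (Nd (x j) l) := mul_pos (hpos i) (hpos j)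
    obtain ⟨w, hwd⟩ : ∃ w, w = wt μ (Nd (x i) l) * wt μ (Nd (x j) l) := ⟨_, rfl⟩
    obtain ⟨B, hBd⟩ : ∃ B, B = ∑ a ∈ Nd (x i) l, ∑ b ∈ Nd (x j) l,
      μ a * μ b * ((T a b).toNat : ℝ) := ⟨_, rfl⟩
    have hb0 := hB0 i j
    have hb1 := hB1 i j
    rw [← hBd] at hb0 hb1 h1
    rw [← hwd] at hb1 h1 hw
    constructor
    · intro hlow
      unfold Low at hlow
      have h2 := mul_le_mul_of_nonneg_right hlow hw.le
      have h3 := mul_le_mul_of_nonneg_left hb1 hγ0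
      nlinarith [h1.1]
    · intro hhigh
      unfold High at hhigh
      have h2 := mul_le_mul_of_nonneg_right hhigh hw.le
      have h3 := mul_nonneg hγ0 hb0
      nlinarith [h1.2]
  have i0 : Fin M := ⟨0, by omega⟩
  have hρ : ∃ ρ, ∀ i j, i ≠ j → lev (x i) (x j) % r = ρ := by
    refine ⟨lev (x ⟨0, by omega⟩) (x ⟨1, by omega⟩) % r, fun i j hij => ?_⟩
    have h1 := hwin i j hij
    have h2 := hwin ⟨0, by omega⟩ ⟨1, by omega⟩ (by simp)
    exact le_antisymm (win_mod hγ0 hγ2 h1 h2) (win_mod hγ0 hγ2 h2 h1)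
  obtain ⟨S, S', hS, hS', hy⟩ := hT l hl x hlev hρ
  obtain ⟨ρ, hρ⟩ := hρ
  -- a pair with few relations
  obtain ⟨p, hp, hp'⟩ := avg_exists μ h0 (fun i => Nd (x i) l) hpos S hS
    (fun a b => 4 * ((T a b).toNat : ℝ) - 1) (by
      intro y hyN
      have h1 := (hy y fun i => by have := hyN i; rwa [mem_Nd] at this).1
      have h2 : ∑ p ∈ S, (4 * ((T (y p.1) (y p.2)).toNat : ℝ) - 1) =
          4 * ((S.filter fun p => T (y p.1) (y p.2) = true).card : ℝ) - S.card := by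
        rw [sum_sub_distrib, ← mul_sum, sum_const, nsmul_eq_mul, mul_one, card_filter]
        congr 2
        push_cast
        refine sum_congr rfl fun p _ => ?_
        cases T (y p.1) (y p.2) <;> simp
      rw [h2]
      have h3 : (4 : ℝ) * ((S.filter fun p => T (y p.1) (y p.2) = true).card : ℝ) < S.card := by
        exact_mod_cast h1
      linarith)
  -- a pair with many relations
  obtain ⟨p2, hp2, hp2'⟩ := avg_exists μ h0 (fun i => Nd (x i) l) hpos S' hS'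
    (fun a b => 3 - 4 * ((T a b).toNat : ℝ)) (by
      intro y hyN
      have h1 := (hy y fun i => by have := hyN i; rwa [mem_Nd] at this).2
      have h2 : ∑ p ∈ S', (3 - 4 * ((T (y p.1) (y p.2)).toNat : ℝ)) =
          4 * ((S'.filter fun p => T (y p.1) (y p.2) = false).card : ℝ) - S'.card := by
        have e1 : ∀ p ∈ S', (3 - 4 * ((T (y p.1) (y p.2)).toNat : ℝ)) =
            4 * (if T (y p.1) (y p.2) = false then (1 : ℝ) else 0) - 1 := by
          intro p _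
          cases T (y p.1) (y p.2) <;> norm_num
        rw [sum_congr rfl e1, sum_sub_distrib, ← mul_sum, sum_const, nsmul_eq_mul, mul_one,
          card_filter]
        push_cast
        rfl
      rw [h2]
      have h3 : (4 : ℝ) * ((S'.filter fun p => T (y p.1) (y p.2) = false).card : ℝ) < S'.card := by
        exact_mod_cast h1
      linarith)
  have q1 := hS p hp
  have q2 := hS' p2 hp2
  have w1 : 0 < wt μ (Nd (x p.1) l) * wt μ (Nd (x p.2) l) := mul_pos (hpos _) (hpos _)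
  have w2 : 0 < wt μ (Nd (x p2.1) l) * wt μ (Nd (x p2.2) l) := mul_pos (hpos _) (hpos _)
  have h1 := (abs_le.1 (H _ _ (hvis p.1) (hvis p.2))).1
  have h2 := (abs_le.1 (H _ _ (hvis p2.1) (hvis p2.2))).2
  rw [E1_nodes hl (hlev _ _ q1), hρ _ _ q1] at h1
  rw [E1_nodes hl (hlev _ _ q2), hρ _ _ q2] at h2
  have b1 : 4 * ∑ a ∈ Nd (x p.1) l, ∑ b ∈ Nd (x p.2) l, μ a * μ b * ((T a b).toNat : ℝ) <
      wt μ (Nd (x p.1) l) * wt μ (Nd (x p.2) l) := by
    have e : ∑ a ∈ Nd (x p.1) l, ∑ b ∈ Nd (x p.2) l, μ a * μ b * (4 * ((T a b).toNat : ℝ) - 1) =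
        4 * ∑ a ∈ Nd (x p.1) l, ∑ b ∈ Nd (x p.2) l, μ a * μ b * ((T a b).toNat : ℝ) -
        wt μ (Nd (x p.1) l) * wt μ (Nd (x p.2) l) := by
      rw [wt_mul, mul_sum, ← sum_sub_distrib]
      refine sum_congr rfl fun a _ => ?_
      rw [mul_sum, ← sum_sub_distrib]
      refine sum_congr rfl fun b _ => ?_
      ring
    have hp'' := hp'
    rw [e] at hp''
    linarith
  have b2 : 3 * (wt μ (Nd (x p2.1) l) * wt μ (Nd (x p2.2) l)) <
      4 * ∑ a ∈ Nd (x p2.1) l, ∑ b ∈ Nd (x p2.2) l, μ a * μ b * ((T a b).toNat : ℝ) := by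
    have e : ∑ a ∈ Nd (x p2.1) l, ∑ b ∈ Nd (x p2.2) l,
        μ a * μ b * (3 - 4 * ((T a b).toNat : ℝ)) =
        3 * (wt μ (Nd (x p2.1) l) * wt μ (Nd (x p2.2) l)) -
        4 * ∑ a ∈ Nd (x p2.1) l, ∑ b ∈ Nd (x p2.2) l, μ a * μ b * ((T a b).toNat : ℝ) := by
      rw [wt_mul, mul_sum, mul_sum, ← sum_sub_distrib]
      refine sum_congr rfl fun a _ => ?_
      rw [mul_sum, mul_sum, ← sum_sub_distrib]
      refine sum_congr rfl fun b _ => ?_
      ring
    have hp'' := hp2'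
    rw [e] at hp''
    linarith
  obtain ⟨u1, hu1⟩ : ∃ u, u = wt μ (Nd (x p.1) l) * wt μ (Nd (x p.2) l) := ⟨_, rfl⟩
  obtain ⟨u2, hu2⟩ : ∃ u, u = wt μ (Nd (x p2.1) l) * wt μ (Nd (x p2.2) l) := ⟨_, rfl⟩
  obtain ⟨B1, hB1'⟩ : ∃ B, B = ∑ a ∈ Nd (x p.1) l, ∑ b ∈ Nd (x p.2) l,
    μ a * μ b * ((T a b).toNat : ℝ) := ⟨_, rfl⟩
  obtain ⟨B2, hB2'⟩ : ∃ B, B = ∑ a ∈ Nd (x p2.1) l, ∑ b ∈ Nd (x p2.2) l,
    μ a * μ b * ((T a b).toNat : ℝ) := ⟨_, rfl⟩
  rw [← hu1, ← hB1'] at h1 b1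
  rw [← hu2, ← hB2'] at h2 b2
  rw [← hu1] at w1
  rw [← hu2] at w2
  -- `D - δ₁ ≤ γ (2 ρ + 1 / 4)` and `γ (2 ρ + 3 / 4) ≤ D + δ₁`
  have c1 : (D - δ₁) * u1 ≤ γ * (2 * (ρ : ℝ) + 1 / 4) * u1 := by
    have := mul_le_mul_of_nonneg_left b1.le hγ0
    nlinarith
  have c2 : γ * (2 * (ρ : ℝ) + 3 / 4) * u2 ≤ (D + δ₁) * u2 := by
    have := mul_le_mul_of_nonneg_left b2.le hγ0
    nlinarith
  have d1 := le_of_mul_le_mul_right c1 w1
  have d2 := le_of_mul_le_mul_right c2 w2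
  linarith

/-! ### leaks -/

open scoped Classical in
/-- the leaves whose node of level `l` is visible -/
noncomputable def Vs (μ : (Fin K → Fin n) → ℝ) (A : ℝ) (l : ℕ) : Finset (Fin K → Fin n) :=
  univ.filter fun a => A ≤ wt μ (Nd a l)

theorem mem_Vs {μ : (Fin K → Fin n) → ℝ} {A : ℝ} {l : ℕ} {a : Fin K → Fin n} :
    a ∈ Vs μ A l ↔ A ≤ wt μ (Nd a l) := by
  classical
  unfold Vs
  simp

theorem leak_node {μ : (Fin K → Fin n) → ℝ} (h0 : ∀ a, 0 ≤ μ a) {A : ℝ} (hA : 0 ≤ A)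
    (x : Fin K → Fin n) {l : ℕ} (hl : l < K) : wt μ (Nd x l \ Vs μ A (l + 1)) ≤ n * A := by
  classical
  rw [← wt_fiber μ (Nd x l \ Vs μ A (l + 1)) ⟨l, hl⟩]
  have h1 : ∀ c : Fin n, wt μ ((Nd x l \ Vs μ A (l + 1)).filter fun a => a ⟨l, hl⟩ = c) ≤ A := by
    intro c
    rcases ((Nd x l \ Vs μ A (l + 1)).filter fun a => a ⟨l, hl⟩ = c).eq_empty_or_nonempty with h | h
    · rw [h]
      simpa [wt] using hA
    · obtain ⟨a, ha⟩ := h
      rw [mem_filter, mem_sdiff, mem_Vs, mem_Nd] at ha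
      obtain ⟨⟨ha1, ha2⟩, ha3⟩ := ha
      push Not at ha2
      refine le_trans (wt_mono h0 ?_) ha2.le
      intro b hb
      rw [mem_filter, mem_sdiff, mem_Nd] at hb
      rw [mem_Nd, ← Pool.Agent.RTU.ag_iff (by omega)]
      intro j hj
      rcases Nat.lt_or_ge (j : ℕ) l with h' | h'
      · rw [(Pool.Agent.RTU.ag_iff hl.le).2 hb.1.1 j h', (Pool.Agent.RTU.ag_iff hl.le).2 ha1 j h']
      · have : j = ⟨l, hl⟩ := Fin.ext (by simp only; omega)
        rw [this, hb.2, ha3]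
  refine (sum_le_sum fun c _ => h1 c).trans ?_
  rw [sum_const, card_univ, Fintype.card_fin, nsmul_eq_mul]

theorem leak_block {T : (Fin K → Fin n) → (Fin K → Fin n) → Bool} {r : ℕ} {γ α δ₁ δ₂ D V : ℝ}
    {μ : (Fin K → Fin n) → ℝ} (hγ0 : 0 ≤ γ) (hα : 0 < α) (h12 : δ₁ < δ₂)
    (h0 : ∀ a, 0 ≤ μ a) (hV0 : 0 < V)
    (H : ∀ X Y : Finset (Fin K → Fin n), α * V ≤ wt μ X → α * V ≤ wt μ Y →
      |E1 T r γ μ X Y - D * (wt μ X * wt μ Y)| ≤ δ₁ * (wt μ X * wt μ Y))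
    (x : Fin K → Fin n) {b b' : ℕ} (hbb : b ≤ b') (hb' : b' ≤ K)
    (hw : ∀ i, b ≤ i → i < b' → ¬ Win r γ δ₂ D i) (hx : α * V ≤ wt μ (Nd x b)) :
    wt μ (Nd x b \ Vs μ (α * V) b') ≤ (n + 2) * (α * V) := by
  classical
  have hA : 0 < α * V := mul_pos hα hV0
  have hn0 : (0 : ℝ) ≤ n := Nat.cast_nonneg n
  obtain ⟨P, hP⟩ : ∃ P : ℕ → Prop,
      P = fun m => b ≤ m ∧ ∃ a ∈ Nd x b, α * V ≤ wt μ (Nd a m) := ⟨_, rfl⟩
  have hPb : P b := by
    rw [hP]
    exact ⟨le_rfl, x, self_mem_Nd x (by omega), hx⟩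
  obtain ⟨m, hm⟩ : ∃ m, m = Nat.findGreatest P b' := ⟨_, rfl⟩
  have hPm : P m := by
    rw [hm]
    exact Nat.findGreatest_spec hbb hPb
  have hmb' : m ≤ b' := by
    rw [hm]
    exact Nat.findGreatest_le b'
  have hgr : ∀ k, m < k → k ≤ b' → ¬ P k := by
    intro k h1 h2
    rw [hm] at h1
    exact Nat.findGreatest_is_greatest h1 h2
  rw [hP] at hPm
  obtain ⟨hbm, a, ha, hav⟩ := hPm
  rw [mem_Nd] at ha
  have hL := loss hγ0 hα h12 h0 hV0 H a (hmb'.trans hb') hav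
  have hlev : ∀ c ∈ Nd x b, b ≤ lev c a := by
    intro c hc
    rw [mem_Nd] at hc
    have h1 := Nd_eq (by omega : b ≤ K) ha
    rw [← mem_Nd, h1, mem_Nd]
    exact hc
  have hin : ∀ c ∈ Nd x b, lev c a < m → c ∈ Ls r γ δ₂ D a m := by
    intro c hc hcm
    rw [mem_Ls]
    exact ⟨hcm, hw _ (hlev c hc) (by omega)⟩
  rcases Nat.lt_or_ge m b' with hlt | hge
  · have h1 : Nd x b \ Vs μ (α * V) b' ⊆ Ls r γ δ₂ D a m ∪ (Nd a m \ Vs μ (α * V) (m + 1)) := by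
      intro c hc
      rw [mem_sdiff] at hc
      rw [mem_union]
      by_cases h2 : lev c a < m
      · exact Or.inl (hin c hc.1 h2)
      · right
        rw [mem_sdiff, mem_Nd, mem_Vs]
        refine ⟨by omega, fun h3 => ?_⟩
        refine hgr (m + 1) (by omega) (by omega) ?_
        rw [hP]
        exact ⟨by omega, c, hc.1, h3⟩
    have h2 := (wt_mono h0 h1).trans (wt_union_le h0 _ _)
    have h3 := leak_node h0 hA.le a (by omega : m < K)
    nlinarith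
  · have hmb : m = b' := le_antisymm hmb' hge
    have h1 : Nd x b \ Vs μ (α * V) b' ⊆ Ls r γ δ₂ D a m := by
      intro c hc
      rw [mem_sdiff, mem_Vs] at hc
      refine hin c hc.1 ?_
      by_contra h2
      push Not at h2
      apply hc.2
      rw [← hmb, Nd_eq (by omega : m ≤ K) h2]
      exact hav
    have h2 := wt_mono h0 h1
    nlinarith

theorem wt_biUnion_le {μ : (Fin K → Fin n) → ℝ} (h0 : ∀ a, 0 ≤ μ a)
    [DecidableEq (Fin K → Fin n)] [DecidableEq (Finset (Fin K → Fin n))]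
    (F : Finset (Finset (Fin K → Fin n))) (g : Finset (Fin K → Fin n) → Finset (Fin K → Fin n)) :
    wt μ (F.biUnion g) ≤ ∑ X ∈ F, wt μ (g X) := by
  induction F using Finset.induction_on with
  | empty => simp [wt]
  | insert X F hX ih =>
    rw [biUnion_insert, sum_insert hX]
    have h1 : wt μ (g X ∪ F.biUnion g) ≤ wt μ (g X) + wt μ (F.biUnion g) := by
      unfold wt
      rw [← sum_union_inter]
      exact le_add_of_nonneg_right (sum_nonneg fun a _ => h0 a)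
    linarith

theorem sum_nodes {μ : (Fin K → Fin n) → ℝ} (h0 : ∀ a, 0 ≤ μ a) {A c : ℝ} (hc : 0 ≤ c) {l M : ℕ}
    (hM : (Fl μ A l).card ≤ M) (Z : Finset (Fin K → Fin n)) (hl : l ≤ K)
    (h : ∀ x, A ≤ wt μ (Nd x l) → wt μ (Nd x l \ Z) ≤ c) : wt μ (Vs μ A l \ Z) ≤ M * c := by
  classical
  have h1 : Vs μ A l \ Z ⊆ (Fl μ A l).biUnion fun X => X \ Z := by
    intro a ha
    rw [mem_sdiff, mem_Vs] at ha
    rw [mem_biUnion]
    exact ⟨Nd a l, mem_Fl.2 ⟨⟨a, rfl⟩, ha.1⟩, mem_sdiff.2 ⟨self_mem_Nd a hl, ha.2⟩⟩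
  refine (wt_mono h0 h1).trans ((wt_biUnion_le h0 _ _).trans ?_)
  have h2 : ∀ X ∈ Fl μ A l, wt μ (X \ Z) ≤ c := by
    intro X hX
    obtain ⟨⟨a, rfl⟩, hv⟩ := mem_Fl.1 hX
    exact h a hv
  refine (sum_le_sum h2).trans ?_
  rw [sum_const, nsmul_eq_mul]
  exact mul_le_mul_of_nonneg_right (by exact_mod_cast hM) hc

theorem wt_sdiff_add {μ : (Fin K → Fin n) → ℝ} (h0 : ∀ a, 0 ≤ μ a) (X Z : Finset (Fin K → Fin n)) :
    wt μ X ≤ wt μ Z + wt μ (X \ Z) := by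
  classical
  have h1 : X ⊆ Z ∪ (X \ Z) := by
    intro a ha
    rw [mem_union, mem_sdiff]
    by_cases h : a ∈ Z
    · exact Or.inl h
    · exact Or.inr ⟨ha, h⟩
  have h2 := wt_union_le h0 Z (X \ Z)
  have h3 : wt μ X ≤ wt μ (Z ∪ (X \ Z)) := by
    refine wt_mono h0 ?_
    convert h1
  refine h3.trans ?_
  convert h2

theorem leaks {T : (Fin K → Fin n) → (Fin K → Fin n) → Bool} {r M : ℕ}
    {γ α δ₁ δ₂ D V h : ℝ} {μ : (Fin K → Fin n) → ℝ} (hM : 2 ≤ M)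
    (hT : Steer M r T) (hα : 0 < α) (h12 : δ₁ < δ₂) (hγ0 : 0 ≤ γ) (hγ2 : 2 * δ₂ < γ)
    (hγ : 4 * δ₂ ≤ γ) (h0 : ∀ a, 0 ≤ μ a) (hμ : ∀ a, μ a ≤ h) (hh : 0 ≤ h) (hV0 : 0 < V)
    (H : ∀ X Y : Finset (Fin K → Fin n), α * V ≤ wt μ X → α * V ≤ wt μ Y →
      |E1 T r γ μ X Y - D * (wt μ X * wt μ Y)| ≤ δ₁ * (wt μ X * wt μ Y)) (j : ℕ) :
    ∀ b ≤ K, (∀ W : Finset ℕ, (∀ i ∈ W, b ≤ i ∧ i < K ∧ Win r γ δ₂ D i) → W.card ≤ j) →
      wt μ (Vs μ (α * V) b) ≤ M * h + M * ((2 * n + 2) * (j + 1) * (α * V)) := by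
  classical
  have hA : 0 < α * V := mul_pos hα hV0
  have hn0 : (0 : ℝ) ≤ n := Nat.cast_nonneg n
  have hM0 : (0 : ℝ) ≤ M := Nat.cast_nonneg M
  have hvis : ∀ l ≤ K, (Fl μ (α * V) l).card ≤ M := fun l hl =>
    (vis_lt hM hT hα h12 hγ0 hγ2 hγ h0 hV0 H hl).le
  have hblock : ∀ b b', b ≤ b' → b' ≤ K → (∀ i, b ≤ i → i < b' → ¬ Win r γ δ₂ D i) →
      wt μ (Vs μ (α * V) b) ≤ wt μ (Vs μ (α * V) b') + M * ((n + 2) * (α * V)) := by
    intro b b' hbb hb' hw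
    refine (wt_sdiff_add h0 _ (Vs μ (α * V) b')).trans (add_le_add le_rfl ?_)
    exact sum_nodes h0 (by positivity) (hvis b (by omega)) _ (by omega) fun x hx =>
      leak_block hγ0 hα h12 h0 hV0 H x hbb hb' hw hx
  have hnone : ∀ b ≤ K, (∀ i, b ≤ i → i < K → ¬ Win r γ δ₂ D i) →
      wt μ (Vs μ (α * V) b) ≤ M * h + M * ((n + 2) * (α * V)) := by
    intro b hb hw
    have h1 := hblock b K hb le_rfl hw
    have h2 : wt μ (Vs μ (α * V) K \ ∅) ≤ M * h := by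
      refine sum_nodes h0 hh (hvis K le_rfl) ∅ le_rfl fun x _ => ?_
      have h3 : Nd x K \ ∅ ⊆ {x} := by
        intro a ha
        rw [mem_sdiff, mem_Nd] at ha
        rw [mem_singleton]
        funext i
        exact (Pool.Agent.RTU.ag_iff le_rfl).2 ha.1 i i.2
      refine (wt_mono h0 h3).trans ?_
      simpa [wt] using hμ x
    rw [sdiff_empty] at h2
    linarith
  induction j with
  | zero =>
    intro b hb hW
    have h1 := hnone b hb fun i hi1 hi2 hi3 => by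
      have := hW {i} (by
        intro i' hi'
        rw [mem_singleton] at hi'
        rw [hi']
        exact ⟨hi1, hi2, hi3⟩)
      rw [card_singleton] at this
      omega
    refine h1.trans (add_le_add le_rfl (mul_le_mul_of_nonneg_left ?_ hM0))
    push_cast
    nlinarith
  | succ j ih =>
    intro b hb hW
    by_cases hex : ∃ w, b ≤ w ∧ w < K ∧ Win r γ δ₂ D w
    · have hfind := Nat.find_spec hex
      have hmin : ∀ i, i < Nat.find hex → ¬ (b ≤ i ∧ i < K ∧ Win r γ δ₂ D i) := fun i hi =>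
        Nat.find_min hex hi
      obtain ⟨w, hw⟩ : ∃ w, w = Nat.find hex := ⟨_, rfl⟩
      rw [← hw] at hfind hmin
      obtain ⟨hbw, hwK, hww⟩ := hfind
      have h1 := hblock b w hbw hwK.le fun i hi1 hi2 hi3 => hmin i hi2 ⟨hi1, by omega, hi3⟩
      have h2 : wt μ (Vs μ (α * V) w) ≤ wt μ (Vs μ (α * V) (w + 1)) + M * (n * (α * V)) := by
        refine (wt_sdiff_add h0 _ (Vs μ (α * V) (w + 1))).trans (add_le_add le_rfl ?_)
        exact sum_nodes h0 (by positivity) (hvis w hwK.le) _ hwK.le fun x _ =>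
          leak_node h0 hA.le x hwK
      have h3 := ih (w + 1) (by omega) (by
        intro W' hW'
        have hnot : w ∉ W' := fun hin => by
          have := (hW' w hin).1
          omega
        have := hW (insert w W') (by
          intro i hi
          rw [mem_insert] at hi
          rcases hi with rfl | hi
          · exact ⟨hbw, hwK, hww⟩
          · obtain ⟨e1, e2, e3⟩ := hW' i hi
            exact ⟨by omega, e2, e3⟩)
        rw [card_insert_of_notMem hnot] at this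
        omega)
      push_cast at h3 ⊢
      nlinarith
    · push Not at hex
      have h1 := hnone b hb fun i hi1 hi2 => hex i hi1 hi2
      refine h1.trans (add_le_add le_rfl (mul_le_mul_of_nonneg_left ?_ hM0))
      push_cast
      have hj0 : (0 : ℝ) ≤ j := Nat.cast_nonneg j
      have e1 : 0 ≤ (2 * (n : ℝ) + 2) * j * (α * V) := by positivity
      nlinarith

theorem kerM {T : (Fin K → Fin n) → (Fin K → Fin n) → Bool} {r q M : ℕ}
    {γ α δ₁ δ₂ D V h : ℝ} {μ : (Fin K → Fin n) → ℝ} (hK : K = r * q) (hr : 1 ≤ r) (hM : 2 ≤ M)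
    (hT : Steer M r T) (hα : 0 < α) (h12 : δ₁ < δ₂) (hγ : 4 * δ₂ ≤ γ)
    (h0 : ∀ a, 0 ≤ μ a) (hμ : ∀ a, μ a ≤ h) (hV : V = wt μ univ) (hV0 : 0 < V)
    (hc : 4 * (n + 1) * (q + 1) * M * α ≤ 1)
    (H : ∀ X Y : Finset (Fin K → Fin n), α * V ≤ wt μ X → α * V ≤ wt μ Y →
      |E1 T r γ μ X Y - D * (wt μ X * wt μ Y)| ≤ δ₁ * (wt μ X * wt μ Y)) :
    V ≤ 2 * M * h := by
  classical
  have hA : 0 < α * V := mul_pos hα hV0
  have hn0 : (0 : ℝ) ≤ n := Nat.cast_nonneg n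
  have hq0 : (0 : ℝ) ≤ q := Nat.cast_nonneg q
  have hM2 : (2 : ℝ) ≤ M := by exact_mod_cast hM
  have hα1 : α ≤ 1 := by
    have e1 : (1 : ℝ) ≤ 4 * (n + 1) * (q + 1) * M := by
      have e2 : (1 : ℝ) ≤ (n + 1) * (q + 1) := by nlinarith
      nlinarith
    have e3 := mul_le_mul_of_nonneg_right e1 hα.le
    linarith
  have hα2 : α * V ≤ V := by nlinarith
  have hδ : 0 ≤ δ₁ := by
    have e1 := H univ univ (by rw [← hV]; exact hα2) (by rw [← hV]; exact hα2)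
    have e2 := (abs_nonneg _).trans e1
    rw [← hV] at e2
    by_contra h'
    push Not at h'
    have := mul_neg_of_neg_of_pos h' (mul_pos hV0 hV0)
    linarith
  have hγ0 : 0 ≤ γ := by linarith
  have hγ2 : 2 * δ₂ < γ := by linarith
  have hh : 0 ≤ h := by
    by_contra h'
    push Not at h'
    have : V ≤ 0 := by
      rw [hV]
      exact sum_nonpos fun a _ => (hμ a).trans h'.le
    linarith
  have key := leaks hM hT hα h12 hγ0 hγ2 hγ h0 hμ hh hV0 H q 0 (Nat.zero_le K) (by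
    intro W hW
    refine le_trans (card_le_card ?_) (wn_le (δ₂ := δ₂) (D := D) hr hγ0 hγ2 (l := K) hK.le)
    intro i hi
    rw [mem_filter, mem_range]
    exact ⟨(hW i hi).2.1, (hW i hi).2.2⟩)
  have hun : Vs μ (α * V) 0 = univ := by
    ext a
    rw [mem_Vs]
    have : Nd a 0 = univ := by
      ext b
      rw [mem_Nd]
      simp
    rw [this, ← hV]
    simp [hα2]
  rw [hun, ← hV] at key
  have e1 : (M : ℝ) * ((2 * n + 2) * (q + 1) * (α * V)) ≤ V / 2 := by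
    have := mul_le_mul_of_nonneg_right hc hV0.le
    nlinarith
  linarith

end Pool.Agent.RTX
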