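import Pool.Agent.RTX.Kern
import Pool.Agent.RSU.Main

/-!
# RTX, the graph and the transfer (model: `Pool/Agent/RTU/Main.lean`, `main2`, word for word)
-/

set_option autoImplicit false

namespace Pool.Agent.RTX

open Finset Pool.Agent.RSU

theorem col_comm {K n : ℕ} {T : (Fin K → Fin n) → (Fin K → Fin n) → Bool}
    (hT : ∀ a b, T a b = T b a) (r : ℕ) (a b : Fin K → Fin n) : col T r a b = col T r b a := by
  unfold col
  rw [lev_comm a b, hT a b]

/-- the graph -/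
def GT {n K : ℕ} (T : (Fin K → Fin n) → (Fin K → Fin n) → Bool) (hT : ∀ a b, T a b = T b a)
    (p g r k : ℕ) : SimpleGraph ((Fin K → Fin n) × (Fin k → ZMod p)) where
  Adj a b := a.1 ≠ b.1 ∧ (a.2 ⬝ᵥ b.2).val < g * col T r a.1 b.1
  symm := ⟨by
    rintro a b ⟨h1, h2⟩
    refine ⟨h1.symm, ?_⟩
    rw [dotProduct_comm, col_comm hT]
    exact h2⟩
  loopless := ⟨fun a h => h.1 rfl⟩

instance {n K : ℕ} (T : (Fin K → Fin n) → (Fin K → Fin n) → Bool) (hT : ∀ a b, T a b = T b a)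
    (p g r k : ℕ) : DecidableRel (GT T hT p g r k).Adj := fun a b => by
  unfold GT
  infer_instance

theorem col_le_r {K n : ℕ} (T : (Fin K → Fin n) → (Fin K → Fin n) → Bool) {r : ℕ} (hr : 1 ≤ r)
    (a b : Fin K → Fin n) : col T r a b ≤ 2 * r - 1 := by
  unfold col
  have h := Nat.mod_lt (lev a b) (by omega : 0 < r)
  have h1 : (T a b).toNat ≤ 1 := Bool.toNat_le _
  omega

section

variable {p n K k : ℕ} [Fact p.Prime]

/-- The part of `U` over a leaf. -/
def fb (U : Finset ((Fin K → Fin n) × (Fin k → ZMod p))) (a : Fin K → Fin n) :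
    Finset (Fin k → ZMod p) := univ.filter (fun x => (a, x) ∈ U)

/-- The part of `U` over a set of leaves. -/
def ovr (U : Finset ((Fin K → Fin n) × (Fin k → ZMod p))) (X : Finset (Fin K → Fin n)) :
    Finset ((Fin K → Fin n) × (Fin k → ZMod p)) := U.filter (fun u => u.1 ∈ X)

theorem sum_ovr (U : Finset ((Fin K → Fin n) × (Fin k → ZMod p))) (X : Finset (Fin K → Fin n))
    (f : (Fin K → Fin n) × (Fin k → ZMod p) → ℝ) :
    ∑ u ∈ ovr U X, f u = ∑ a ∈ X, ∑ x ∈ fb U a, f (a, x) := by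
  have h1 : ovr U X = (X ×ˢ (univ : Finset (Fin k → ZMod p))).filter (fun u => u ∈ U) := by
    ext u
    simp [ovr, and_comm]
  rw [h1, sum_filter, sum_product]
  refine sum_congr rfl fun a _ => ?_
  rw [fb, sum_filter]

/-- The weights. -/
noncomputable def mw (U : Finset ((Fin K → Fin n) × (Fin k → ZMod p))) (a : Fin K → Fin n) : ℝ :=
  (fb U a).card

theorem wt_mw (U : Finset ((Fin K → Fin n) × (Fin k → ZMod p))) (X : Finset (Fin K → Fin n)) :
    wt (mw U) X = (ovr U X).card := by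
  have := sum_ovr U X (fun _ => 1)
  simp only [sum_const, nsmul_eq_mul, mul_one] at this
  rw [this]
  rfl

theorem ovr_univ (U : Finset ((Fin K → Fin n) × (Fin k → ZMod p))) : ovr U univ = U := by
  simp [ovr]

theorem inter_eq2 (T : (Fin K → Fin n) → (Fin K → Fin n) → Bool)
    (hT : ∀ a b, T a b = T b a) (g r : ℕ)
    (U : Finset ((Fin K → Fin n) × (Fin k → ZMod p))) (X Y : Finset (Fin K → Fin n)) :
    (((GT T hT p g r k).interedges (ovr U X) (ovr U Y)).card : ℝ) =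
      ∑ a ∈ X, ∑ b ∈ Y, (((fb U a ×ˢ fb U b).filter
        (fun z => a ≠ b ∧ (z.1 ⬝ᵥ z.2).val < g * col T r a b)).card : ℝ) := by
  have h1 : (((GT T hT p g r k).interedges (ovr U X) (ovr U Y)).card : ℝ) =
      ∑ u ∈ ovr U X, ∑ v ∈ ovr U Y, (if (GT T hT p g r k).Adj u v then (1 : ℝ) else 0) := by
    rw [SimpleGraph.interedges, Rel.interedges, card_filter]
    push_cast
    rw [sum_product]
  rw [h1, sum_ovr]
  refine sum_congr rfl fun a _ => ?_
  have h2 : ∀ x ∈ fb U a, ∑ v ∈ ovr U Y, (if (GT T hT p g r k).Adj (a, x) v then (1 : ℝ) else 0) =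
      ∑ b ∈ Y, ∑ y ∈ fb U b, (if (GT T hT p g r k).Adj (a, x) (b, y) then (1 : ℝ) else 0) :=
    fun x _ => sum_ovr U Y _
  rw [sum_congr rfl h2, sum_comm]
  refine sum_congr rfl fun b _ => ?_
  rw [card_filter]
  push_cast
  rw [sum_product]
  rfl

end

theorem leaf_err2 {p n K s g r : ℕ} [Fact p.Prime] (T : (Fin K → Fin n) → (Fin K → Fin n) → Bool)
    (hr : 1 ≤ r) (hg : g * (2 * r - 1) ≤ p)
    (U : Finset ((Fin K → Fin n) × (Fin (2 * s) → ZMod p))) (a b : Fin K → Fin n) :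
    |(((fb U a ×ˢ fb U b).filter
        (fun z => a ≠ b ∧ (z.1 ⬝ᵥ z.2).val < g * col T r a b)).card : ℝ) -
      mw U a * mw U b * D1 T r ((g : ℝ) / p) a b| ≤ (p : ℝ) ^ (3 * s + 1) := by
  by_cases hab : a = b
  · subst hab
    simp [D1]
  · have h1 := gadget s (fb U a) (fb U b) (g * col T r a b)
      ((Nat.mul_le_mul_left g (col_le_r T hr a b)).trans hg)
    have h2 : (fb U a ×ˢ fb U b).filter (fun z => a ≠ b ∧ (z.1 ⬝ᵥ z.2).val < g * col T r a b) =
        (fb U a ×ˢ fb U b).filter (fun z => (z.1 ⬝ᵥ z.2).val < g * col T r a b) := by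
      apply filter_congr
      intro z _
      simp [hab]
    rw [h2]
    unfold D1 mw
    rw [if_neg hab]
    refine le_trans (le_of_eq ?_) h1
    congr 1
    push_cast
    ring

theorem inter_err2 {p n K s g r : ℕ} [Fact p.Prime] (T : (Fin K → Fin n) → (Fin K → Fin n) → Bool)
    (hT : ∀ a b, T a b = T b a)
    (hr : 1 ≤ r) (hg : g * (2 * r - 1) ≤ p)
    (U : Finset ((Fin K → Fin n) × (Fin (2 * s) → ZMod p))) (X Y : Finset (Fin K → Fin n)) :
    |(((GT T hT p g r (2 * s)).interedges (ovr U X) (ovr U Y)).card : ℝ) -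
        E1 T r ((g : ℝ) / p) (mw U) X Y| ≤
      ((n : ℝ) ^ K) ^ 2 * (p : ℝ) ^ (3 * s + 1) := by
  rw [inter_eq2, E1, ← sum_sub_distrib]
  refine (abs_sum_le_sum_abs _ _).trans ?_
  have h1 : ∀ a ∈ X, |∑ b ∈ Y, (((fb U a ×ˢ fb U b).filter
        (fun z => a ≠ b ∧ (z.1 ⬝ᵥ z.2).val < g * col T r a b)).card : ℝ) -
        ∑ b ∈ Y, mw U a * mw U b * D1 T r ((g : ℝ) / p) a b| ≤
          (Y.card : ℝ) * (p : ℝ) ^ (3 * s + 1) := by
    intro a _
    rw [← sum_sub_distrib]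
    refine (abs_sum_le_sum_abs _ _).trans ?_
    refine (sum_le_sum fun b _ => leaf_err2 T hr hg U a b).trans ?_
    rw [sum_const, nsmul_eq_mul]
  refine (sum_le_sum h1).trans ?_
  rw [sum_const, nsmul_eq_mul]
  have hc : ∀ Z : Finset (Fin K → Fin n), (Z.card : ℝ) ≤ (n : ℝ) ^ K := by
    intro Z
    have := card_le_univ Z
    rw [Fintype.card_fun, Fintype.card_fin, Fintype.card_fin] at this
    exact_mod_cast this
  have h2 := hc X
  have h3 := hc Y
  calc (X.card : ℝ) * (Y.card * (p : ℝ) ^ (3 * s + 1))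
      ≤ (n : ℝ) ^ K * ((n : ℝ) ^ K * (p : ℝ) ^ (3 * s + 1)) := by gcongr
    _ = _ := by ring

theorem main3 {n p g r q K s M : ℕ} [Fact p.Prime]
    {T : (Fin K → Fin n) → (Fin K → Fin n) → Bool} {α δ η : ℝ} (hTs : ∀ a b, T a b = T b a)
    (hK : K = r * q) (hr : 1 ≤ r) (hM : 2 ≤ M) (hT : Steer M r T) (hα : 0 < α) (hη : 0 < η)
    (hg : g * (2 * r - 1) ≤ p) (hgδ : 4 * (δ + 2 * η) ≤ (g : ℝ) / p)
    (hc : 4 * (n + 1) * (q + 1) * M * α ≤ 1)
    (U : Finset ((Fin K → Fin n) × (Fin (2 * s) → ZMod p))) (hU : U.Nonempty)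
    (hs : ((n : ℝ) ^ K) ^ 2 * (p : ℝ) ^ (3 * s + 1) ≤ η * (α * U.card) ^ 2)
    (hreg : ∀ A ⊆ U, ∀ B ⊆ U, α * U.card ≤ A.card → α * U.card ≤ B.card →
      |((GT T hTs p g r (2 * s)).edgeDensity A B : ℝ) -
        (GT T hTs p g r (2 * s)).edgeDensity U U| ≤ δ) :
    (U.card : ℝ) ≤ 2 * M * (p : ℝ) ^ (2 * s) := by
  have hUc : 0 < U.card := card_pos.2 hU
  have hM0 : (0 : ℝ) < U.card := by exact_mod_cast hUc
  set d : ℝ := (((GT T hTs p g r (2 * s)).edgeDensity U U : ℚ) : ℝ) with hd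
  set Er : ℝ := ((n : ℝ) ^ K) ^ 2 * (p : ℝ) ^ (3 * s + 1) with hEr
  refine kerM (μ := mw U) (h := (p : ℝ) ^ (2 * s)) (D := d) (γ := (g : ℝ) / p)
    (δ₁ := δ + η) (δ₂ := δ + 2 * η) hK hr hM hT hα (by linarith) hgδ
    (fun a => by unfold mw; positivity) ?_ (by rw [wt_mw, ovr_univ]) hM0 hc ?_
  · intro a
    unfold mw
    have := card_le_univ (fb U a)
    rw [Fintype.card_fun, ZMod.card, Fintype.card_fin] at this
    exact_mod_cast this
  · intro X Y hX hY
    rw [wt_mw] at hX hY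
    rw [wt_mw, wt_mw]
    have hX0 : (0 : ℝ) < (ovr U X).card := lt_of_lt_of_le (mul_pos hα hM0) hX
    have hY0 : (0 : ℝ) < (ovr U Y).card := lt_of_lt_of_le (mul_pos hα hM0) hY
    have h1 := abs_le.1 (hreg (ovr U X) (filter_subset _ _) (ovr U Y) (filter_subset _ _) hX hY)
    have h2 := abs_le.1 (inter_err2 T hTs hr hg U X Y)
    rw [dens_mul _ _ _ (by exact_mod_cast hX0) (by exact_mod_cast hY0)] at h2
    have h3 : (α * U.card) ^ 2 ≤ ((ovr U X).card : ℝ) * (ovr U Y).card := by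
      rw [sq]; gcongr
    have h4 : Er ≤ η * (((ovr U X).card : ℝ) * (ovr U Y).card) :=
      hs.trans (mul_le_mul_of_nonneg_left h3 hη.le)
    have h5 := mul_le_mul_of_nonneg_right h1.1 (mul_pos hX0 hY0).le
    have h6 := mul_le_mul_of_nonneg_right h1.2 (mul_pos hX0 hY0).le
    rw [abs_le]
    constructor <;> linarith [h2.1, h2.2]

end Pool.Agent.RTX
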